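import Mathlib

/-!
Analytic core for the ramification growth theorem: expansion of the characters of `ℤ_p` of
order `p ^ n` in powers of `ζ - 1`, and the resulting norm computation.
-/

open Filter Topology Finset

namespace Pool.Agent.Lib.MP30d976

variable {p : ℕ} [hp : Fact p.Prime]
variable {F : Type*} [NormedField F]

/-- the norm of a root of unity is one -/
lemma norm_eq_one_of_pow_eq_one {x : F} {n : ℕ} (hn : n ≠ 0)
    (h : x ^ n = 1) : ‖x‖ = 1 := by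
  have h1 : ‖x‖ ^ n = 1 := by rw [← norm_pow, h, norm_one]
  exact (pow_eq_one_iff_of_nonneg (norm_nonneg x) hn).1 h1

lemma norm_sub_one_le_of_pow [IsUltrametricDist F] {x : F}
    (hx : ‖x‖ ≤ 1) (m : ℕ) : ‖x ^ m - 1‖ ≤ ‖x - 1‖ := by
  have h1 : x ^ m - 1 = (∑ i ∈ range m, x ^ i) * (x - 1) := (geom_sum_mul x m).symm
  rw [h1, norm_mul]
  have h2 : ‖∑ i ∈ range m, x ^ i‖ ≤ 1 := by
    apply IsUltrametricDist.norm_sum_le_of_forall_le_of_nonneg zero_le_one
    intro i _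
    rw [norm_pow]
    exact pow_le_one₀ (norm_nonneg x) hx
  calc ‖∑ i ∈ range m, x ^ i‖ * ‖x - 1‖ ≤ 1 * ‖x - 1‖ :=
        mul_le_mul_of_nonneg_right h2 (norm_nonneg _)
    _ = ‖x - 1‖ := one_mul _

lemma norm_sub_one_eq_of_primitive [IsUltrametricDist F] {x y : F}
    {n : ℕ} (hn : n ≠ 0) (hx : IsPrimitiveRoot x n) (hy : IsPrimitiveRoot y n) :
    ‖x - 1‖ = ‖y - 1‖ := by
  have : NeZero n := ⟨hn⟩
  apply le_antisymm
  · obtain ⟨i, _, hi⟩ := hy.eq_pow_of_pow_eq_one hx.pow_eq_one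
    rw [← hi]
    exact norm_sub_one_le_of_pow (norm_eq_one_of_pow_eq_one hn hy.pow_eq_one).le i
  · obtain ⟨i, _, hi⟩ := hx.eq_pow_of_pow_eq_one hy.pow_eq_one
    rw [← hi]
    exact norm_sub_one_le_of_pow (norm_eq_one_of_pow_eq_one hn hx.pow_eq_one).le i

variable [NormedAlgebra ℚ_[p] F]

omit hp in
lemma norm_natCast_p [Fact p.Prime] [NormedAlgebra ℚ_[p] F] : ‖(p : F)‖ = (p : ℝ)⁻¹ := by
  have h := norm_algebraMap' F (p : ℚ_[p])
  rw [map_natCast] at h
  rw [h, Padic.norm_p]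

lemma norm_algebraMap_eq (x : ℤ_[p]) : ‖(algebraMap ℚ_[p] F) (x : ℚ_[p])‖ = ‖x‖ := by
  rw [norm_algebraMap', PadicInt.norm_def]

/-- If `ζ` has exact order `p ^ n`, `n ≥ 1`, then `‖ζ - 1‖ ^ φ(p ^ n) = 1 / p`. -/
lemma norm_primitive_sub_one_pow [IsUltrametricDist F] {ζ : F} {n : ℕ} (hn : n ≠ 0)
    (hζ : IsPrimitiveRoot ζ (p ^ n)) : ‖ζ - 1‖ ^ (p ^ (n - 1) * (p - 1)) = (p : ℝ)⁻¹ := by
  obtain ⟨k, rfl⟩ : ∃ k, n = k + 1 := ⟨n - 1, by omega⟩
  have hpn : p ^ (k + 1) ≠ 0 := pow_ne_zero _ hp.out.ne_zero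
  have h1 : Polynomial.eval 1 (Polynomial.cyclotomic (p ^ (k + 1)) F) = p :=
    Polynomial.eval_one_cyclotomic_prime_pow k
  rw [Polynomial.cyclotomic_eq_prod_X_sub_primitiveRoots hζ, Polynomial.eval_prod] at h1
  have h2 : ∏ j ∈ primitiveRoots (p ^ (k + 1)) F, ‖ζ - 1‖ = ‖(p : F)‖ := by
    rw [← h1, norm_prod]
    apply Finset.prod_congr rfl
    intro j hj
    have hj' := (mem_primitiveRoots (Nat.pos_of_ne_zero hpn)).1 hj
    rw [norm_sub_one_eq_of_primitive hpn hζ hj']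
    simp only [Polynomial.eval_sub, Polynomial.eval_X, Polynomial.eval_C]
    exact norm_sub_rev _ _
  rw [Finset.prod_const, hζ.card_primitiveRoots, Nat.totient_prime_pow_succ hp.out] at h2
  rw [Nat.add_sub_cancel, h2, norm_natCast_p]

omit [NormedAlgebra ℚ_[p] F] in
lemma norm_tsum_eq_of_dominant [IsUltrametricDist F]
    {t : ℕ → F} (ht : Summable t) (j₀ : ℕ) (B : ℝ) (hB : B < ‖t j₀‖)
    (h : ∀ j, j ≠ j₀ → ‖t j‖ ≤ B) : ‖∑' j, t j‖ = ‖t j₀‖ := by
  have hB0 : 0 ≤ B := (norm_nonneg _).trans (h (j₀ + 1) (by omega))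
  rw [ht.tsum_eq_add_tsum_ite j₀]
  have h1 : ‖∑' j, (if j = j₀ then 0 else t j)‖ ≤ B := by
    apply IsUltrametricDist.norm_tsum_le_of_forall_le_of_nonneg hB0
    intro j
    by_cases hj : j = j₀
    · simp [hj, hB0]
    · simp [hj, h j hj]
  have h2 : ‖t j₀‖ ≠ ‖∑' j, (if j = j₀ then 0 else t j)‖ := by
    intro h3; rw [← h3] at h1; exact absurd hB (not_lt.2 h1)
  rw [IsUltrametricDist.norm_add_eq_max_of_norm_ne_norm h2]
  exact max_eq_left (h1.trans hB.le)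

/-- a dominant index of a sequence of `p`-adic integers -/
lemma exists_dominant (A : ℕ → ℤ_[p]) (hA : ∃ j, 1 ≤ j ∧ A j ≠ 0) :
    ∃ j₀ : ℕ, 1 ≤ j₀ ∧ A j₀ ≠ 0 ∧ (∀ j, 1 ≤ j → ‖A j‖ ≤ ‖A j₀‖) ∧
      (∀ j, 1 ≤ j → j < j₀ → ‖A j‖ ≤ ‖A j₀‖ * (p : ℝ)⁻¹) := by
  classical
  -- minimal valuation
  have h1 : ∃ v : ℕ, ∃ j, 1 ≤ j ∧ A j ≠ 0 ∧ (A j).valuation = v := by
    obtain ⟨j, hj1, hj2⟩ := hA
    exact ⟨_, j, hj1, hj2, rfl⟩
  have h2 := Nat.find_spec h1
  have h3 := fun m => Nat.find_min (H := h1) (m := m)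
  set v := Nat.find h1 with hv
  have h4 : ∃ j, 1 ≤ j ∧ A j ≠ 0 ∧ (A j).valuation = v := h2
  have h5 := Nat.find_spec h4
  have h6 := fun m => Nat.find_min (H := h4) (m := m)
  set j₀ := Nat.find h4 with hj₀
  have key : ∀ j, 1 ≤ j → A j ≠ 0 → v ≤ (A j).valuation := by
    intro j hj1 hj2
    by_contra hlt
    exact h3 _ (not_le.1 hlt) ⟨j, hj1, hj2, rfl⟩
  have hpp : (1 : ℝ) < p := by exact_mod_cast hp.out.one_lt
  have hle : ∀ j, 1 ≤ j → ‖A j‖ ≤ ‖A j₀‖ := by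
    intro j hj
    by_cases h0 : A j = 0
    · rw [h0, norm_zero]; exact norm_nonneg _
    · rw [PadicInt.norm_eq_zpow_neg_valuation h0, PadicInt.norm_eq_zpow_neg_valuation h5.2.1]
      apply zpow_le_zpow_right₀ hpp.le
      have := key j hj h0
      rw [h5.2.2]
      omega
  refine ⟨j₀, h5.1, h5.2.1, hle, ?_⟩
  intro j hj1 hjlt
  by_cases h0 : A j = 0
  · rw [h0, norm_zero]; positivity
  have h8 : v < (A j).valuation := by
    refine lt_of_le_of_ne (key j hj1 h0) ?_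
    intro heq
    exact h6 j hjlt ⟨hj1, h0, heq.symm⟩
  rw [PadicInt.norm_eq_zpow_neg_valuation h0, PadicInt.norm_eq_zpow_neg_valuation h5.2.1,
    h5.2.2, ← zpow_neg_one, ← zpow_add₀ (by positivity)]
  apply zpow_le_zpow_right₀ hpp.le
  omega

/-- the additive character attached to a homomorphism `κ` -/
noncomputable def toAddChar (κ : Multiplicative ℤ_[p] →* Fˣ) : AddChar ℤ_[p] F where
  toFun z := (κ (Multiplicative.ofAdd z) : F)
  map_zero_eq_one' := by simp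
  map_add_eq_mul' a b := by simp [ofAdd_add]

omit [NormedAlgebra ℚ_[p] F] in
lemma toAddChar_apply (κ : Multiplicative ℤ_[p] →* Fˣ) (z : ℤ_[p]) :
    toAddChar κ z = (κ (Multiplicative.ofAdd z) : F) := rfl

omit [NormedAlgebra ℚ_[p] F] in
lemma toAddChar_mul_pow {κ : Multiplicative ℤ_[p] →* Fˣ} {n : ℕ} (hκ : κ ^ (p ^ n) = 1)
    (z : ℤ_[p]) : toAddChar κ ((p : ℤ_[p]) ^ n * z) = 1 := by
  have h1 : (p : ℤ_[p]) ^ n * z = (p ^ n) • z := by
    rw [nsmul_eq_mul]; push_cast; ring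
  rw [toAddChar_apply, h1, ofAdd_nsmul, map_pow]
  have h2 := DFunLike.congr_fun hκ (Multiplicative.ofAdd z)
  simp only [MonoidHom.pow_apply, MonoidHom.one_apply] at h2
  rw [h2]; simp

omit [NormedAlgebra ℚ_[p] F] in
lemma toAddChar_eq_of_norm_sub_le {κ : Multiplicative ℤ_[p] →* Fˣ} {n : ℕ}
    (hκ : κ ^ (p ^ n) = 1) {x y : ℤ_[p]} (h : ‖x - y‖ ≤ (p : ℝ) ^ (-n : ℤ)) :
    toAddChar κ x = toAddChar κ y := by
  rw [PadicInt.norm_le_pow_iff_mem_span_pow, Ideal.mem_span_singleton] at h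
  obtain ⟨z, hz⟩ := h
  have : x = y + (p : ℤ_[p]) ^ n * z := by rw [← hz]; ring
  rw [this, AddChar.map_add_eq_mul, toAddChar_mul_pow hκ, mul_one]

omit [NormedAlgebra ℚ_[p] F] in
lemma continuous_toAddChar {κ : Multiplicative ℤ_[p] →* Fˣ} {n : ℕ}
    (hκ : κ ^ (p ^ n) = 1) : Continuous (toAddChar κ) := by
  rw [Metric.continuous_iff]
  intro b ε hε
  refine ⟨(p : ℝ) ^ (-n : ℤ), by have := hp.out.pos; positivity, ?_⟩
  intro a ha
  rw [dist_eq_norm] at ha
  rw [toAddChar_eq_of_norm_sub_le hκ ha.le, dist_self]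
  exact hε

lemma charSum [IsUltrametricDist F] [CompleteSpace F]
    (κ : Multiplicative ℤ_[p] →* Fˣ) {n : ℕ} (hκ : κ ^ (p ^ n) = 1)
    (hnorm : ‖(κ (Multiplicative.ofAdd 1) : F) - 1‖ < 1) (z : ℤ_[p]) :
    HasSum (fun j : ℕ => algebraMap ℚ_[p] F ((Ring.choose z j : ℤ_[p]) : ℚ_[p]) *
      ((κ (Multiplicative.ofAdd 1) : F) - 1) ^ j) (κ (Multiplicative.ofAdd z) : F) := by
  let _ : Algebra ℤ_[p] F := ((algebraMap ℚ_[p] F).comp PadicInt.Coe.ringHom).toAlgebra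
  have : IsBoundedSMul ℤ_[p] F := IsBoundedSMul.of_norm_smul_le
    (fun (r : ℤ_[p]) (x : F) => by
      rw [Algebra.smul_def r x, norm_mul]
      apply le_of_eq
      congr 1
      exact norm_algebraMap_eq r)
  set r := (κ (Multiplicative.ofAdd 1) : F) - 1 with hr
  have hr' : Tendsto (r ^ ·) atTop (𝓝 0) := tendsto_pow_atTop_nhds_zero_iff_norm_lt_one.mpr hnorm
  have h1 := PadicInt.eq_addChar_of_value_at_one hr' (continuous_toAddChar hκ) (by
    rw [toAddChar_apply, hr]; ring)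
  have h2 : toAddChar κ z = PadicInt.mahlerSeries (r ^ ·) z := by
    rw [h1, PadicInt.coe_addChar_of_value_at_one]
  have h3 := PadicInt.hasSum_mahlerSeries (p := p) hr'
  have h4 := ContinuousMap.hasSum_apply h3 z
  rw [← h2] at h4
  have h5 : ∀ i : ℕ, (PadicInt.mahlerTerm (p := p) (r ^ i) i) z =
      algebraMap ℚ_[p] F ((Ring.choose z i : ℤ_[p]) : ℚ_[p]) * r ^ i := by
    intro i
    rw [PadicInt.mahlerTerm_apply, Algebra.smul_def]
    rfl
  simp only [h5] at h4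
  exact h4


/-! ### Binomial moments of a finite family of `p`-adic integers -/

section moments

variable {ι : Type*}

/-- binomial moments `∑ C(w_l, j)` of a finite family of `p`-adic integers -/
noncomputable def moment (D : Finset ι) (w : ι → ℤ_[p]) (j : ℕ) : ℤ_[p] :=
  ∑ l ∈ D, Ring.choose (w l) j

lemma exists_moment_ne_zero (D : Finset ι) (w : ι → ℤ_[p]) (hc : ∃ l ∈ D, w l ≠ 0) :
    ∃ j, 1 ≤ j ∧ moment D w j ≠ 0 := by
  classical
  by_contra hcon
  push Not at hcon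
  -- the key identity
  have key : ∀ f : C(ℤ_[p], ℤ_[p]), ∑ l ∈ D, f (w l) = (D.card : ℤ_[p]) * f 0 := by
    intro f
    have h1 : ∀ z : ℤ_[p],
        HasSum (fun n => Ring.choose z n * ((fwdDiff (1 : ℤ_[p]))^[n] f 0)) (f z) := by
      intro z
      have h2 := ContinuousMap.hasSum_apply (PadicInt.hasSum_mahler f) z
      have h5 : ∀ i : ℕ, (PadicInt.mahlerTerm (p := p) ((fwdDiff (1 : ℤ_[p]))^[i] f 0) i) z =
          Ring.choose z i * ((fwdDiff (1 : ℤ_[p]))^[i] f 0) := by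
        intro i
        rw [PadicInt.mahlerTerm_apply]
        rfl
      simp only [h5] at h2
      exact h2
    have h3 : HasSum (fun n => ∑ l ∈ D,
        (Ring.choose (w l) n * ((fwdDiff (1 : ℤ_[p]))^[n] f 0))) (∑ l ∈ D, f (w l)) :=
      hasSum_sum (fun l _ => (h1 (w l)))
    have h4 : ∀ n, ∑ l ∈ D,
        (Ring.choose (w l) n * ((fwdDiff (1 : ℤ_[p]))^[n] f 0)) =
        moment D w n * ((fwdDiff (1 : ℤ_[p]))^[n] f 0) := by
      intro n
      rw [moment, Finset.sum_mul]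
    simp only [h4] at h3
    have h5 : HasSum (fun n => moment D w n * ((fwdDiff (1 : ℤ_[p]))^[n] f 0))
        (moment D w 0 * ((fwdDiff (1 : ℤ_[p]))^[0] f 0)) := by
      apply hasSum_single
      intro n hn
      rw [hcon n (Nat.one_le_iff_ne_zero.2 hn), zero_mul]
    have h6 := h3.unique h5
    rw [h6]
    simp [moment]
  -- choose a radius
  obtain ⟨l₀, hl₀, hwl₀⟩ := hc
  set S := D.filter (fun l => w l ≠ 0) with hS
  have hl₀S : l₀ ∈ S := by simp [hS, hl₀, hwl₀]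
  obtain ⟨v, hvS, hv⟩ := S.exists_min_image (fun l => ‖w l‖) ⟨l₀, hl₀S⟩
  have hv0 : w v ≠ 0 := (Finset.mem_filter.1 hvS).2
  have hclopen : IsClopen (Metric.ball (0 : ℤ_[p]) ‖w v‖)ᶜ :=
    (IsUltrametricDist.isClopen_ball 0 ‖w v‖).compl
  obtain ⟨f, hf⟩ : ∃ f : C(ℤ_[p], ℤ_[p]),
      ∀ x, f x = Set.indicator (Metric.ball (0 : ℤ_[p]) ‖w v‖)ᶜ (fun _ => (1 : ℤ_[p])) x :=
    ⟨⟨Set.indicator (Metric.ball (0 : ℤ_[p]) ‖w v‖)ᶜ (fun _ => 1),
      hclopen.continuous_indicator continuous_const⟩, fun _ => rfl⟩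
  have h7 := key f
  have h8 : f 0 = 0 := by
    rw [hf, Set.indicator_of_notMem]
    simp [hv0]
  have h9 : ∀ l ∈ D, f (w l) = if w l ≠ 0 then (1 : ℤ_[p]) else 0 := by
    intro l hl
    by_cases hz0 : w l = 0
    · simp [hz0, h8]
    · rw [if_pos hz0, hf, Set.indicator_of_mem]
      simp only [Set.mem_compl_iff, Metric.mem_ball, dist_zero_right, not_lt]
      exact hv l (Finset.mem_filter.2 ⟨hl, hz0⟩)
  rw [h8, mul_zero, Finset.sum_congr rfl h9, ← Finset.sum_filter, Finset.sum_const,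
    nsmul_eq_mul, mul_one] at h7
  have h10 : S.card = 0 := by exact_mod_cast h7
  rw [Finset.card_eq_zero] at h10
  rw [h10] at hl₀S
  exact absurd hl₀S (Finset.notMem_empty _)

/-- a homomorphism of order `p ^ n` takes a primitive root of unity as value at the generator -/
lemma isPrimitiveRoot_of_orderOf {F : Type*} [NormedField F]
    {κ : Multiplicative ℤ_[p] →* Fˣ} {n : ℕ} (hκ : orderOf κ = p ^ n) :
    IsPrimitiveRoot (κ (Multiplicative.ofAdd 1) : F) (p ^ n) := by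
  have hκ' : κ ^ (p ^ n) = 1 := by rw [← hκ]; exact pow_orderOf_eq_one κ
  -- `κ ^ m = 1` as soon as `κ 1 ^ m = 1`
  have key : ∀ m : ℕ, (κ (Multiplicative.ofAdd 1) : F) ^ m = 1 → κ ^ m = 1 := by
    intro m hm
    refine MonoidHom.ext fun z => Units.ext ?_
    obtain ⟨w, rfl⟩ : ∃ w : ℤ_[p], Multiplicative.ofAdd w = z := ⟨Multiplicative.toAdd z, rfl⟩
    -- approximate by a natural number
    have h1 : ‖w - (w.appr n : ℕ)‖ ≤ (p : ℝ) ^ (-n : ℤ) := by
      rw [PadicInt.norm_le_pow_iff_mem_span_pow]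
      exact PadicInt.appr_spec n w
    have h2 := toAddChar_eq_of_norm_sub_le hκ' h1
    have h3 : toAddChar κ ((w.appr n : ℕ) : ℤ_[p]) =
        (κ (Multiplicative.ofAdd 1) : F) ^ (w.appr n) := by
      have : ((w.appr n : ℕ) : ℤ_[p]) = (w.appr n) • (1 : ℤ_[p]) := by simp
      rw [this, AddChar.map_nsmul_eq_pow, toAddChar_apply]
    rw [h3, toAddChar_apply] at h2
    simp only [MonoidHom.pow_apply, MonoidHom.one_apply, Units.val_pow_eq_pow_val, Units.val_one]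
    rw [h2, ← pow_mul, mul_comm, pow_mul, hm, one_pow]
  constructor
  · have h := DFunLike.congr_fun hκ' (Multiplicative.ofAdd 1)
    simp only [MonoidHom.pow_apply, MonoidHom.one_apply] at h
    rw [← Units.val_pow_eq_pow_val, h, Units.val_one]
  · intro l hl
    rw [← hκ]
    exact orderOf_dvd_of_pow_eq_one (key l hl)

/-- The norm formula: for every character `κ` of order `p ^ n` with `n > j₀`,
`‖∑ κ(w_l) - #D‖ = p ^ (-μ) * ‖κ(1) - 1‖ ^ j₀`. -/
lemma exists_norm_formula (F : Type*) [NormedField F] [NormedAlgebra ℚ_[p] F]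
    [IsUltrametricDist F] [CompleteSpace F]
    (D : Finset ι) (w : ι → ℤ_[p]) (hc : ∃ l ∈ D, w l ≠ 0) :
    ∃ μ j₀ : ℕ, 1 ≤ j₀ ∧ ∀ n, j₀ < n → ∀ κ : Multiplicative ℤ_[p] →* Fˣ, orderOf κ = p ^ n →
      ‖∑ l ∈ D, (κ (Multiplicative.ofAdd (w l)) : F) - (D.card : F)‖ =
        (p : ℝ) ^ (-μ : ℤ) * ‖(κ (Multiplicative.ofAdd 1) : F) - 1‖ ^ j₀ := by
  obtain ⟨j₀, hj₀, hA0, hA1, hA2⟩ := exists_dominant (moment D w) (exists_moment_ne_zero D w hc)
  refine ⟨(moment D w j₀).valuation, j₀, hj₀, ?_⟩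
  intro n hn κ hκ
  have hn0 : n ≠ 0 := by omega
  have hp1 : (1 : ℝ) < p := by exact_mod_cast hp.out.one_lt
  have hp0 : (0 : ℝ) < p := by positivity
  have hprim := isPrimitiveRoot_of_orderOf (F := F) hκ
  have hκ' : κ ^ (p ^ n) = 1 := by rw [← hκ]; exact pow_orderOf_eq_one κ
  have hnorm := norm_primitive_sub_one_pow hn0 hprim
  set π := (κ (Multiplicative.ofAdd 1) : F) - 1 with hπ
  set r := ‖π‖ with hr
  have hr1 : r < 1 := by
    by_contra h
    have := one_le_pow₀ (n := p ^ (n - 1) * (p - 1)) (not_lt.1 h)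
    rw [hnorm] at this
    exact absurd (inv_lt_one_of_one_lt₀ hp1) (not_lt.2 this)
  have hr0 : 0 < r := by
    rcases (norm_nonneg π).lt_or_eq with h | h
    · exact h
    · exfalso
      rw [← hr] at h
      have h2 : p ^ (n - 1) * (p - 1) ≠ 0 := by
        have := hp.out.two_le
        have h3 : p - 1 ≠ 0 := by omega
        exact mul_ne_zero (pow_ne_zero _ (by omega)) h3
      rw [← h, zero_pow h2] at hnorm
      have := inv_pos.2 hp0
      linarith
  have hφ : j₀ < p ^ (n - 1) * (p - 1) := by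
    have h1 : j₀ < 2 ^ j₀ := Nat.lt_two_pow_self
    have h2 : 2 ^ j₀ ≤ p ^ (n - 1) :=
      (Nat.pow_le_pow_left hp.out.two_le _).trans (Nat.pow_le_pow_right hp.out.pos (by omega))
    have h3 : 1 ≤ p - 1 := by have := hp.out.two_le; omega
    calc j₀ < p ^ (n - 1) := h1.trans_le h2
      _ = p ^ (n - 1) * 1 := (mul_one _).symm
      _ ≤ _ := Nat.mul_le_mul_left _ h3
  have hrj : (p : ℝ)⁻¹ < r ^ j₀ := by
    rw [← hnorm]
    exact pow_lt_pow_right_of_lt_one₀ hr0 hr1 hφ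
  -- the expansion
  have h1 : HasSum (fun j => algebraMap ℚ_[p] F ((moment D w j : ℤ_[p]) : ℚ_[p]) * π ^ j)
      (∑ l ∈ D, (κ (Multiplicative.ofAdd (w l)) : F)) := by
    have h2 : HasSum (fun j => ∑ l ∈ D,
        (algebraMap ℚ_[p] F ((Ring.choose (w l) j : ℤ_[p]) : ℚ_[p]) * π ^ j))
        (∑ l ∈ D, (κ (Multiplicative.ofAdd (w l)) : F)) :=
      hasSum_sum (fun l _ => (charSum κ hκ' hr1 (w l)))
    convert h2 using 2 with j
    change ((algebraMap ℚ_[p] F).comp PadicInt.Coe.ringHom) (moment D w j) * π ^ j =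
      ∑ l ∈ D, (((algebraMap ℚ_[p] F).comp PadicInt.Coe.ringHom) (Ring.choose (w l) j) * π ^ j)
    rw [moment, map_sum, Finset.sum_mul]
  have h0 : algebraMap ℚ_[p] F ((moment D w 0 : ℤ_[p]) : ℚ_[p]) * π ^ 0 = (D.card : F) := by
    simp [moment]
  set t : ℕ → F := fun j => algebraMap ℚ_[p] F ((moment D w j : ℤ_[p]) : ℚ_[p]) * π ^ j with ht
  have h2 : HasSum (fun j => t (j + 1))
      (∑ l ∈ D, (κ (Multiplicative.ofAdd (w l)) : F) - (D.card : F)) := by
    rw [← h0]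
    have := (hasSum_nat_add_iff' (f := t) 1).2 h1
    rw [Finset.sum_range_one] at this
    exact this
  have htn : ∀ j, ‖t j‖ = ‖moment D w j‖ * r ^ j := by
    intro j
    rw [ht]
    simp only
    rw [norm_mul, norm_algebraMap_eq, norm_pow]
  have hpos : 0 < ‖moment D w j₀‖ := norm_pos_iff.2 hA0
  have h3 := norm_tsum_eq_of_dominant h2.summable (j₀ - 1)
    (max (‖moment D w j₀‖ * (p : ℝ)⁻¹) (‖moment D w j₀‖ * r ^ (j₀ + 1))) (by
      simp only [Nat.sub_add_cancel hj₀]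
      rw [htn, max_lt_iff]
      constructor
      · exact mul_lt_mul_of_pos_left hrj hpos
      · exact mul_lt_mul_of_pos_left (pow_lt_pow_right_of_lt_one₀ hr0 hr1 (Nat.lt_succ_self _)) hpos)
    (by
      intro j hj
      rw [htn]
      rcases lt_or_ge (j + 1) j₀ with hlt | hge
      · apply le_max_of_le_left
        calc ‖moment D w (j + 1)‖ * r ^ (j + 1) ≤ (‖moment D w j₀‖ * (p : ℝ)⁻¹) * 1 := by
              apply mul_le_mul (hA2 _ (by omega) hlt) (pow_le_one₀ hr0.le hr1.le)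
                (by positivity) (by positivity)
          _ = _ := mul_one _
      · apply le_max_of_le_right
        apply mul_le_mul (hA1 _ (by omega)) _ (by positivity) (by positivity)
        apply pow_le_pow_of_le_one hr0.le hr1.le
        omega)
  rw [h2.tsum_eq, Nat.sub_add_cancel hj₀, htn] at h3
  rw [h3, PadicInt.norm_eq_zpow_neg_valuation hA0]

end moments

end Pool.Agent.Lib.MP30d976
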