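import Mathlib

/-!
# Definitions: `ℤ_p`-towers of curves over finite fields and their L-functions

A smooth projective geometrically irreducible curve `X` over the finite field `k` is given by its
function field `K`; closed points of `X` are the valuation rings of `K` over `k`, different from
`K`; a `ℤ_p`-tower is a Galois extension `L / K` with group `ℤ_p` and field of constants `k`.
-/

open scoped PowerSeries.WithPiTopology

namespace Pool.Agent.Lib.MP30d976

/-- `K` is the function field of a smooth projective geometrically irreducible curve over the
perfect field `k`: `K` is finitely generated of transcendence degree one over `k` (it is finite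
over `k(t)` for some `t` transcendental over `k`), and `k` is algebraically closed in `K`. -/
structure IsCurveFunctionField (k K : Type*) [Field k] [Field K] [Algebra k K] : Prop where
  /-- finite over a rational function field -/
  exists_finite : ∃ t : K, Transcendental k t ∧
    FiniteDimensional (IntermediateField.adjoin k {t}) K
  /-- `k` is algebraically closed in `K` -/
  constants : ∀ x : K, IsAlgebraic k x → ∃ c : k, algebraMap k K c = x

/-- The closed points of the curve with function field `K / k`: the valuation rings of `K` which
contain `k` and are different from `K`. -/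
@[ext]
structure ClosedPoint (k K : Type*) [Field k] [Field K] [Algebra k K] where
  /-- the local ring of the point -/
  ring : ValuationSubring K
  /-- it contains the constants -/
  algebraMap_mem : ∀ c : k, algebraMap k K c ∈ ring
  /-- it is not the whole field -/
  ne_top : ring ≠ ⊤

namespace ClosedPoint

variable {k K : Type*} [Field k] [Field K] [Algebra k K]

/-- The residue field `κ(x)`. -/
abbrev ResidueField (x : ClosedPoint k K) : Type _ := IsLocalRing.ResidueField x.ring

/-- The inclusion of the constants into the local ring of a closed point. -/
def constants (x : ClosedPoint k K) : k →+* x.ring :=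
  (algebraMap k K).codRestrict x.ring x.algebraMap_mem

/-- The residue field as a `k`-algebra. -/
noncomputable instance (x : ClosedPoint k K) : Algebra k x.ResidueField :=
  ((IsLocalRing.residue x.ring).comp x.constants).toAlgebra

/-- The degree `[κ(x) : k]` of a closed point. -/
noncomputable def degree (x : ClosedPoint k K) : ℕ := Module.finrank k x.ResidueField

/-- `x` is unramified in the (possibly infinite) Galois extension `L / K`: the inertia groups
of all valuation rings of `L` above the local ring of `x` are trivial. -/
def IsUnramifiedIn (x : ClosedPoint k K) (L : Type*) [Field L] [Algebra K L] : Prop :=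
  ∀ B : ValuationSubring L, B.comap (algebraMap K L) = x.ring → B.inertiaSubgroup K = ⊥

/-- `σ ∈ Gal(L / K)` is an arithmetic Frobenius element at `x`: for every valuation ring `B` of
`L` above the local ring of `x`, one has `σ b ≡ b ^ #κ(x)` modulo the maximal ideal of `B`,
for all `b ∈ B`. -/
def IsFrobenius (x : ClosedPoint k K) {L : Type*} [Field L] [Algebra K L] (σ : L ≃ₐ[K] L) :
    Prop :=
  ∀ B : ValuationSubring L, B.comap (algebraMap K L) = x.ring →
    ∀ b ∈ B, σ b - b ^ Nat.card x.ResidueField ∈ B.nonunits

end ClosedPoint

/-- A `ℤ_p`-tower of curves over the finite field `k`, ramified at finitely many (and at least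
one) closed points: `K` is the function field of the base curve `X`, and `L` is the union of the
function fields of the curves `X_n`; it is a Galois extension of `K` with group topologically
isomorphic to `ℤ_p`, in which `k` is algebraically closed. -/
structure IsZpTower (p : ℕ) [Fact p.Prime] (k K L : Type*) [Field k] [Field K] [Algebra k K]
    [Field L] [Algebra K L] [Algebra k L] : Prop where
  /-- the base curve -/
  curve : IsCurveFunctionField k K
  /-- the extension is Galois -/
  isGalois : IsGalois K L
  /-- with group `ℤ_p` -/
  group : Nonempty ((L ≃ₐ[K] L) ≃ₜ* Multiplicative ℤ_[p])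
  /-- all the curves `X_n` are geometrically irreducible over `k` -/
  constants : ∀ x : L, IsAlgebraic k x → ∃ c : k, algebraMap k L c = x
  /-- the set `S` of ramified closed points is finite -/
  finite_ramified : {x : ClosedPoint k K | ¬ x.IsUnramifiedIn L}.Finite
  /-- the set `S` of ramified closed points is not empty -/
  nonempty_ramified : {x : ClosedPoint k K | ¬ x.IsUnramifiedIn L}.Nonempty

/-- The set `U` of closed points which are unramified in the tower. -/
abbrev UnramifiedPoint (k K L : Type*) [Field k] [Field K] [Algebra k K]
    [Field L] [Algebra K L] : Type _ :=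
  {x : ClosedPoint k K // x.IsUnramifiedIn L}

/-- A character of `Gal(L / K)` with values in `ℂ_p^*`. -/
abbrev Character (p : ℕ) [Fact p.Prime] (K L : Type*) [Field K] [Field L] [Algebra K L] :
    Type _ := (L ≃ₐ[K] L) →* ℂ_[p]ˣ

/-- The character `χ` has exact order `m`. -/
def HasExactOrder {p : ℕ} [Fact p.Prime] {K L : Type*} [Field K] [Field L] [Algebra K L]
    (χ : Character p K L) (m : ℕ) : Prop := orderOf χ = m

/-- The Euler factor `(1 - a s ^ d)⁻¹`, a formal power series in `s`. -/
noncomputable def eulerFactor {F : Type*} [Field F] (a : F) (d : ℕ) : PowerSeries F :=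
  (1 - PowerSeries.C a * PowerSeries.X ^ d)⁻¹

/-- The Euler product `L(χ, s) = ∏_{x ∈ U} (1 - χ(Frob_x) s ^ deg x)⁻¹`, as a formal power
series in `s` over `ℂ_p`, for a character `χ` of `Gal(L / K)` and a family of elements
`frob x` of the Galois group. -/
noncomputable def LFunction {p : ℕ} [Fact p.Prime] {k K L : Type*} [Field k] [Field K]
    [Algebra k K] [Field L] [Algebra K L] (frob : UnramifiedPoint k K L → (L ≃ₐ[K] L))
    (χ : Character p K L) : PowerSeries ℂ_[p] :=
  ∏' x : UnramifiedPoint k K L, eulerFactor (χ (frob x) : ℂ_[p]) x.1.degree

/-- The polynomial `P` is the L-function `L(χ, s)`. -/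
def IsLPolynomial {p : ℕ} [Fact p.Prime] {k K L : Type*} [Field k] [Field K]
    [Algebra k K] [Field L] [Algebra K L] (frob : UnramifiedPoint k K L → (L ≃ₐ[K] L))
    (χ : Character p K L) (P : Polynomial ℂ_[p]) : Prop :=
  (P : PowerSeries ℂ_[p]) = LFunction frob χ

/-- The field obtained from `ℚ_p` by adjoining all reciprocal roots of the polynomial `P`
over `ℂ_p`. -/
noncomputable def reciprocalRootField {p : ℕ} [Fact p.Prime] (P : Polynomial ℂ_[p]) :
    IntermediateField ℚ_[p] ℂ_[p] :=
  IntermediateField.adjoin ℚ_[p] {α : ℂ_[p] | α ≠ 0 ∧ P.eval α⁻¹ = 0}

/-- The value group `|F^*|` of a normed field `F`, a subgroup of `ℝ^*`. -/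
noncomputable def valueGroup (F : Type*) [NormedField F] : Subgroup ℝˣ :=
  (Units.map ((normHom : F →*₀ ℝ) : F →* ℝ)).range

/-- The ramification index `e(E / ℚ_p) = [|E^*| : |ℚ_p^*|]` of a finite extension `E` of `ℚ_p`
inside `ℂ_p`. -/
noncomputable def ramificationIndex {p : ℕ} [Fact p.Prime]
    (E : IntermediateField ℚ_[p] ℂ_[p]) : ℕ :=
  (valueGroup ℚ_[p]).relIndex (valueGroup E)

end Pool.Agent.Lib.MP30d976
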