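import Mathlib
import Pool.Agent.Lib.MP_30d976_nt.Defs

/-!
# Ramification indices of finite extensions of `ℚ_p` inside `ℂ_p`
-/

open Finset

namespace Pool.Agent.Lib.MP30d976

variable {p : ℕ} [hp : Fact p.Prime]

lemma mem_valueGroup {E : IntermediateField ℚ_[p] ℂ_[p]} {u : ℝˣ} :
    u ∈ valueGroup E ↔ ∃ x ∈ E, x ≠ 0 ∧ ‖x‖ = (u : ℝ) := by
  constructor
  · rintro ⟨x, rfl⟩
    refine ⟨((x : E) : ℂ_[p]), (x : E).2, ?_, rfl⟩
    simp
  · rintro ⟨x, hx, hx0, hxu⟩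
    refine ⟨Units.mk0 ⟨x, hx⟩ (fun h => hx0 (congrArg Subtype.val h)), ?_⟩
    ext
    exact hxu

lemma mem_valueGroup_padic {u : ℝˣ} :
    u ∈ valueGroup ℚ_[p] ↔ ∃ k : ℤ, (u : ℝ) = (p : ℝ) ^ k := by
  constructor
  · rintro ⟨y, rfl⟩
    refine ⟨-(y : ℚ_[p]).valuation, ?_⟩
    rw [← Padic.norm_eq_zpow_neg_valuation y.ne_zero]
    rfl
  · rintro ⟨k, hk⟩
    have hp0 : (p : ℚ_[p]) ≠ 0 := by exact_mod_cast hp.out.ne_zero
    refine ⟨Units.mk0 ((p : ℚ_[p]) ^ (-k)) (zpow_ne_zero _ hp0), ?_⟩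
    ext
    rw [hk]
    change ‖(p : ℚ_[p]) ^ (-k)‖ = _
    simp

lemma ramificationIndex_ne_zero (E : IntermediateField ℚ_[p] ℂ_[p]) [FiniteDimensional ℚ_[p] E] :
    ramificationIndex E ≠ 0 := by
  classical
  rw [ramificationIndex, Subgroup.relIndex]
  set G := valueGroup E
  set H := (valueGroup ℚ_[p]).subgroupOf G with hH
  -- representatives
  have hrep : ∀ q : G ⧸ H, ∃ x : E, x ≠ 0 ∧ ‖(x : ℂ_[p])‖ = ((q.out : G) : ℝˣ) := by
    intro q
    obtain ⟨x, hx, hx0, h⟩ := mem_valueGroup.1 (q.out : G).2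
    exact ⟨⟨x, hx⟩, fun h => hx0 (congrArg Subtype.val h), h⟩
  choose y hy0 hy using hrep
  have hdist : ∀ q q' : G ⧸ H, ∀ a b : ℚ_[p], a ≠ 0 → b ≠ 0 →
      ‖a‖ * ‖(y q : ℂ_[p])‖ = ‖b‖ * ‖(y q' : ℂ_[p])‖ → q = q' := by
    intro q q' a b ha hb h
    rw [hy, hy] at h
    rw [← QuotientGroup.out_eq' q, ← QuotientGroup.out_eq' q']
    rw [QuotientGroup.eq]
    change ((((q.out : G))⁻¹ * (q'.out : G) : G) : ℝˣ) ∈ valueGroup ℚ_[p]
    refine ⟨Units.mk0 (a * b⁻¹) (mul_ne_zero ha (inv_ne_zero hb)), ?_⟩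
    ext
    change ‖a * b⁻¹‖ = _
    rw [norm_mul, norm_inv]
    have hb' : ‖b‖ ≠ 0 := norm_ne_zero_iff.2 hb
    have hq : (((q.out : G) : ℝˣ) : ℝ) ≠ 0 := Units.ne_zero _
    simp only [Subgroup.coe_mul, Subgroup.coe_inv, Units.val_mul, Units.val_inv_eq_inv_val]
    field_simp
    linarith
  have hli : LinearIndependent ℚ_[p] y := by
    rw [linearIndependent_iff']
    intro s g hg i hi
    by_contra hgi
    set s' := s.filter (fun j => g j ≠ 0) with hs'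
    have h1 : ∑ j ∈ s', algebraMap ℚ_[p] ℂ_[p] (g j) * (y j : ℂ_[p]) = 0 := by
      have h2 : ∑ j ∈ s', g j • y j = 0 := by
        rw [hs', Finset.sum_filter_of_ne, hg]
        intro x _ hx h0
        rw [h0, zero_smul] at hx
        exact hx rfl
      have h3 := congrArg (fun x : E => (x : ℂ_[p])) h2
      simp only [ZeroMemClass.coe_zero] at h3
      rw [← h3]
      push_cast
      apply Finset.sum_congr rfl
      intro j _
      rw [Algebra.smul_def]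
    have h4 := IsUltrametricDist.nnnorm_sum_eq_sup_of_pairwise_ne (s := s')
      (f := fun j => algebraMap ℚ_[p] ℂ_[p] (g j) * (y j : ℂ_[p])) (by
        intro a ha b hb hab heq
        apply hab
        have ha' := (Finset.mem_filter.1 ha).2
        have hb' := (Finset.mem_filter.1 hb).2
        apply hdist a b (g a) (g b) ha' hb'
        have := congrArg NNReal.toReal heq
        simpa [norm_mul, norm_algebraMap'] using this)
    rw [h1, nnnorm_zero] at h4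
    have h5 : i ∈ s' := Finset.mem_filter.2 ⟨hi, hgi⟩
    have h6 := Finset.le_sup (f := fun j => ‖algebraMap ℚ_[p] ℂ_[p] (g j) * (y j : ℂ_[p])‖₊) h5
    rw [← h4] at h6
    have h7 : algebraMap ℚ_[p] ℂ_[p] (g i) * (y i : ℂ_[p]) = 0 := by
      simpa using h6
    rw [mul_eq_zero] at h7
    rcases h7 with h7 | h7
    · exact hgi (by simpa using h7)
    · exact hy0 i (by simpa using h7)
  have hfin : Finite (G ⧸ H) := hli.finite_of_isNoetherian
  exact Subgroup.index_ne_zero_of_finite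

lemma totient_le_mul_ramificationIndex (E : IntermediateField ℚ_[p] ℂ_[p])
    [FiniteDimensional ℚ_[p] E] {y : ℂ_[p]} (hy : y ∈ E) {r : ℝ} {φ j₀ : ℕ} {μ : ℤ}
    (hj₀ : 1 ≤ j₀)
    (hr : r ^ φ = (p : ℝ)⁻¹) (hr0 : 0 < r) (hynorm : ‖y‖ = (p : ℝ) ^ μ * r ^ j₀) :
    φ ≤ j₀ * ramificationIndex E := by
  have hp1 : (1 : ℝ) < p := by exact_mod_cast hp.out.one_lt
  have hp0 : (0 : ℝ) < p := by positivity
  set e := ramificationIndex E with he
  have he0 : e ≠ 0 := ramificationIndex_ne_zero E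
  have hy0 : y ≠ 0 := by
    intro h
    rw [h, norm_zero] at hynorm
    have : 0 < (p : ℝ) ^ μ * r ^ j₀ := by positivity
    linarith
  set u : ℝˣ := Units.mk0 ‖y‖ (norm_ne_zero_iff.2 hy0) with hu
  have huG : u ∈ valueGroup E := mem_valueGroup.2 ⟨y, hy, hy0, rfl⟩
  have h1 : u ^ e ∈ valueGroup ℚ_[p] := by
    have h2 := Subgroup.pow_index_mem ((valueGroup ℚ_[p]).subgroupOf (valueGroup E)) ⟨u, huG⟩
    exact h2
  obtain ⟨k, hk⟩ := mem_valueGroup_padic.1 h1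
  rw [Units.val_pow_eq_pow_val, hu, Units.val_mk0, hynorm] at hk
  -- raise to the power φ
  have h3 : ((p : ℝ) ^ μ * r ^ j₀) ^ e = ((p : ℝ) ^ (μ * e)) * r ^ (j₀ * e) := by
    rw [mul_pow, ← pow_mul, zpow_mul, zpow_natCast]
  rw [h3] at hk
  have h4 : (((p : ℝ) ^ (μ * e)) * r ^ (j₀ * e)) ^ φ = (p : ℝ) ^ (μ * e * φ - (j₀ * e : ℕ)) := by
    rw [mul_pow, ← pow_mul, mul_comm (j₀ * e) φ, pow_mul r, hr, inv_pow, zpow_sub₀ hp0.ne',
      zpow_natCast, zpow_mul _ _ (φ : ℤ), zpow_natCast]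
    rfl
  rw [hk, ← zpow_natCast, ← zpow_mul] at h4
  have h5 := zpow_right_injective₀ hp0 hp1.ne' h4
  have h6 : (φ : ℤ) ∣ (j₀ * e : ℕ) := by
    refine ⟨μ * e - k, ?_⟩
    linarith
  have h7 : φ ∣ j₀ * e := by exact_mod_cast h6
  exact Nat.le_of_dvd (Nat.mul_pos (by omega) (Nat.pos_of_ne_zero he0)) h7

end Pool.Agent.Lib.MP30d976
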