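import Mathlib
import Pool.Agent.Lib.MP_30d976_nt.Defs
import Pool.Agent.Lib.MP_30d976_nt.Core
import Pool.Agent.Lib.MP_30d976_nt.Ram

/-!
# Euler products with coefficients in the character values
-/

open Filter Topology Finset

namespace Pool.Agent.Lib.MP30d976

section Euler
open PowerSeries

variable {K : Type*} [Field K]

/-- explicit inverse of `1 - a X ^ d` -/
lemma geom_inv (a : K) {d : ℕ} (hd : d ≠ 0) :
    (1 - C a * X ^ d : PowerSeries K)⁻¹ =
      PowerSeries.mk (fun m => if d ∣ m then a ^ (m / d) else 0) := by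
  symm
  rw [PowerSeries.eq_inv_iff_mul_eq_one]
  · ext m
    rw [mul_sub, mul_one, mul_comm (C a), ← mul_assoc, map_sub, PowerSeries.coeff_mul_C, coeff_mk,
      coeff_one, PowerSeries.coeff_mul_X_pow']
    rcases lt_or_ge m d with hlt | hge
    · rcases Nat.eq_zero_or_pos m with h0 | hpos
      · subst h0; simp [hd]
      · have : ¬ d ∣ m := Nat.not_dvd_of_pos_of_lt hpos hlt
        simp [this, hpos.ne', not_le.2 hlt]
    · obtain ⟨k, rfl⟩ := Nat.exists_eq_add_of_le' hge
      simp only [Nat.le_add_left, if_true, Nat.add_sub_cancel, coeff_mk]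
      have h1 : d ∣ k + d ↔ d ∣ k := by simp
      simp only [h1]
      by_cases h : d ∣ k
      · simp only [h, if_true]
        rw [Nat.add_div_right _ (Nat.pos_of_ne_zero hd), pow_succ]
        simp [hd]
      · simp [h, hd]
  · simp [hd]

/-- congruence modulo `X ^ (m + 1)` for products -/
lemma X_pow_dvd_prod_sub_one {R : Type*} [CommRing R] {ι : Type*} (s : Finset ι)
    (f : ι → PowerSeries R) (n : ℕ)
    (h : ∀ i ∈ s, (X : PowerSeries R) ^ n ∣ f i - 1) :
    (X : PowerSeries R) ^ n ∣ (∏ i ∈ s, f i) - 1 := by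
  classical
  induction s using Finset.induction_on with
  | empty => simp
  | insert a s ha IH =>
    rw [Finset.prod_insert ha]
    have h1 := IH (fun i hi => h i (Finset.mem_insert_of_mem hi))
    have h2 := h a (Finset.mem_insert_self a s)
    have h3 : f a * ∏ i ∈ s, f i - 1 = (f a - 1) * ∏ i ∈ s, f i + ((∏ i ∈ s, f i) - 1) := by ring
    rw [h3]
    exact dvd_add (h2.mul_right _) h1

lemma coeff_prod_subset {R : Type*} [CommRing R] {ι : Type*} [DecidableEq ι] {s t : Finset ι}
    (hst : s ⊆ t) (f : ι → PowerSeries R) (m : ℕ)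
    (h : ∀ i ∈ t, i ∉ s → (X : PowerSeries R) ^ (m + 1) ∣ f i - 1) :
    coeff m (∏ i ∈ t, f i) = coeff m (∏ i ∈ s, f i) := by
  rw [← Finset.prod_sdiff hst]
  have h1 := X_pow_dvd_prod_sub_one (t \ s) f (m + 1) (fun i hi => by
    rw [Finset.mem_sdiff] at hi
    exact h i hi.1 hi.2)
  have h2 : (∏ i ∈ t \ s, f i) * ∏ i ∈ s, f i =
      ((∏ i ∈ t \ s, f i) - 1) * ∏ i ∈ s, f i + ∏ i ∈ s, f i := by ring
  rw [h2, map_add]
  have h3 : (X : PowerSeries R) ^ (m + 1) ∣ ((∏ i ∈ t \ s, f i) - 1) * ∏ i ∈ s, f i :=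
    h1.mul_right _
  rw [PowerSeries.X_pow_dvd_iff] at h3
  rw [h3 m (Nat.lt_succ_self m), zero_add]

lemma X_pow_dvd_geom_sub_one (a : K) {d n : ℕ} (hd : n ≤ d) (hn : n ≠ 0) :
    (X : PowerSeries K) ^ n ∣ (1 - C a * X ^ d : PowerSeries K)⁻¹ - 1 := by
  have hd0 : d ≠ 0 := by omega
  have h1 : (1 - C a * X ^ d : PowerSeries K) * (1 - C a * X ^ d : PowerSeries K)⁻¹ = 1 := by
    apply PowerSeries.mul_inv_cancel
    simp [hd0]
  have h2 : (1 - C a * X ^ d : PowerSeries K)⁻¹ - 1 =
      C a * X ^ d * (1 - C a * X ^ d : PowerSeries K)⁻¹ := by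
    linear_combination h1
  rw [h2]
  exact ((pow_dvd_pow X hd).mul_left _).mul_right _

open scoped PowerSeries.WithPiTopology

/-- convergence of the Euler product -/
lemma hasProd_euler [TopologicalSpace K] {U : Type*} (d : U → ℕ)
    (hfin : ∀ m, {x | d x ≤ m}.Finite) (a : U → K) :
    HasProd (fun x : U => (1 - C (a x) * X ^ d x : PowerSeries K)⁻¹)
      (PowerSeries.mk fun m => coeff m (∏ x ∈ (hfin m).toFinset,
        (1 - C (a x) * X ^ d x : PowerSeries K)⁻¹)) := by
  classical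
  rw [HasProd, PowerSeries.WithPiTopology.tendsto_iff_coeff_tendsto]
  intro m
  rw [coeff_mk]
  apply tendsto_atTop_of_eventually_const (i₀ := (hfin m).toFinset)
  intro t ht
  apply coeff_prod_subset ht
  intro i _ hi
  have h1 : ¬ d i ≤ m := by simpa using hi
  exact X_pow_dvd_geom_sub_one _ (by omega) (by omega)

variable {p : ℕ} [hp : Fact p.Prime]

/-- effective divisors of degree `m` -/
noncomputable def effDiv {U : Type*} (d : U → ℕ) (hfin : ∀ m, {x | d x ≤ m}.Finite) (m : ℕ) :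
    Finset (U →₀ ℕ) := by
  classical
  exact ((hfin m).toFinset.finsuppAntidiag m).filter (fun l => ∀ x ∈ (hfin m).toFinset, d x ∣ l x)

/-- the sum of the Frobenius elements along an effective divisor -/
noncomputable def divSum {U : Type*} (d : U → ℕ) (hfin : ∀ m, {x | d x ≤ m}.Finite)
    (z : U → ℤ_[p]) (m : ℕ) (l : U →₀ ℕ) : ℤ_[p] :=
  ∑ x ∈ (hfin m).toFinset, (l x / d x) • z x

lemma coeff_euler {F : Type*} [Field F] {U : Type*} (d : U → ℕ) (hd : ∀ x, d x ≠ 0)
    (hfin : ∀ m, {x | d x ≤ m}.Finite) (z : U → ℤ_[p])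
    (κ : Multiplicative ℤ_[p] →* Fˣ) (m : ℕ) :
    coeff m (∏ x ∈ (hfin m).toFinset,
        (1 - C (κ (Multiplicative.ofAdd (z x)) : F) * X ^ d x : PowerSeries F)⁻¹) =
      ∑ l ∈ effDiv d hfin m, (κ (Multiplicative.ofAdd (divSum d hfin z m l)) : F) := by
  classical
  rw [PowerSeries.coeff_prod, effDiv]
  rw [Finset.sum_filter]
  apply Finset.sum_congr rfl
  intro l _
  by_cases h : ∀ x ∈ (hfin m).toFinset, d x ∣ l x
  · rw [if_pos h, divSum, ofAdd_sum, map_prod, Units.coe_prod]
    apply Finset.prod_congr rfl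
    intro x hx
    rw [geom_inv _ (hd x), coeff_mk, if_pos (h x hx), ofAdd_nsmul, map_pow,
      Units.val_pow_eq_pow_val]
  · rw [if_neg h]
    push Not at h
    obtain ⟨x, hx, hx'⟩ := h
    apply Finset.prod_eq_zero hx
    rw [geom_inv _ (hd x), coeff_mk, if_neg hx']

lemma single_mem_effDiv {U : Type*} (d : U → ℕ) (hfin : ∀ m, {x | d x ≤ m}.Finite) (x : U)
    {j : ℕ} (hj : j ≠ 0) : Finsupp.single x (j * d x) ∈ effDiv d hfin (j * d x) := by
  classical
  have hx : x ∈ (hfin (j * d x)).toFinset := by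
    simp only [Set.Finite.mem_toFinset, Set.mem_setOf_eq]
    exact Nat.le_mul_of_pos_left _ (Nat.pos_of_ne_zero hj)
  rw [effDiv, Finset.mem_filter, Finset.mem_finsuppAntidiag]
  refine ⟨⟨?_, ?_⟩, ?_⟩
  · rw [Finset.sum_eq_single x]
    · simp
    · intro b _ hb
      simp [Finsupp.single_apply, hb.symm]
    · intro h; exact absurd hx h
  · intro y hy
    have := Finsupp.support_single_subset hy
    rw [Finset.mem_singleton] at this
    rw [this]; exact hx
  · intro y _
    by_cases hxy : x = y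
    · subst hxy; simp
    · simp [Finsupp.single_apply, hxy]

end Euler

end Pool.Agent.Lib.MP30d976
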