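import Mathlib
import Pool.Agent.Lib.MP_30d976_nt.Euler

/-!
# Linear growth of the ramification: the core argument
-/

open Filter Topology Finset
open scoped PowerSeries.WithPiTopology
namespace Pool.Agent.Lib.MP30d976
variable {p : ℕ} [hp : Fact p.Prime]

/-- coefficients of `P` lie in the field generated by its reciprocal roots, if `P 0 = 1` -/
lemma coeff_mem_reciprocalRootField {P : Polynomial ℂ_[p]} (hP : P.coeff 0 = 1) (m : ℕ) :
    P.coeff m ∈ reciprocalRootField P := by
  set E := reciprocalRootField P with hE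
  have hP0 : P ≠ 0 := by
    rintro rfl
    simp at hP
  have hsplit := IsAlgClosed.splits P
  have hfac := hsplit.eq_prod_roots
  -- the roots lie in `E`
  have hroot : ∀ β ∈ P.roots, β ≠ 0 ∧ β ∈ E := by
    intro β hβ
    have hβ0 : β ≠ 0 := by
      rintro rfl
      have h1 := (Polynomial.mem_roots hP0).1 hβ
      rw [Polynomial.IsRoot, ← Polynomial.coeff_zero_eq_eval_zero, hP] at h1
      exact one_ne_zero h1
    refine ⟨hβ0, ?_⟩
    have h2 : β⁻¹ ∈ E := by
      apply IntermediateField.subset_adjoin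
      refine ⟨inv_ne_zero hβ0, ?_⟩
      rw [inv_inv]
      exact (Polynomial.mem_roots hP0).1 hβ
    have h3 := inv_mem h2
    rwa [inv_inv] at h3
  -- the product lies in `E[X]`
  have hlift : (P.roots.map (fun a => Polynomial.X - Polynomial.C a)).prod ∈
      Polynomial.lifts (algebraMap E ℂ_[p]) := by
    apply Subsemiring.multiset_prod_mem
    intro Q hQ
    obtain ⟨β, hβ, rfl⟩ := Multiset.mem_map.1 hQ
    rw [Polynomial.lifts_iff_coeff_lifts]
    intro n
    refine ⟨⟨(Polynomial.X - Polynomial.C β).coeff n, ?_⟩, rfl⟩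
    rw [Polynomial.coeff_sub, Polynomial.coeff_X, Polynomial.coeff_C]
    refine sub_mem ?_ ?_
    · split_ifs
      · exact one_mem _
      · exact zero_mem _
    · split_ifs
      · exact (hroot β hβ).2
      · exact zero_mem _
  rw [Polynomial.lifts_iff_coeff_lifts] at hlift
  set R := (P.roots.map (fun a => Polynomial.X - Polynomial.C a)).prod with hR
  have hRmem : ∀ n, R.coeff n ∈ E := by
    intro n
    obtain ⟨y, hy⟩ := hlift n
    rw [← hy]
    exact y.2
  have hcoeff : ∀ n, P.coeff n = P.leadingCoeff * R.coeff n := by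
    intro n
    conv_lhs => rw [hfac]
    rw [Polynomial.coeff_C_mul]
  have hlead : P.leadingCoeff ∈ E := by
    have h1 := hcoeff 0
    rw [hP] at h1
    have h2 : R.coeff 0 ≠ 0 := by
      intro h0
      rw [h0, mul_zero] at h1
      exact one_ne_zero h1
    have h3 : P.leadingCoeff = (R.coeff 0)⁻¹ := by
      field_simp
      exact h1.symm
    rw [h3]
    exact inv_mem (hRmem 0)
  rw [hcoeff m]
  exact mul_mem hlead (hRmem m)

lemma finiteDimensional_reciprocalRootField {P : Polynomial ℂ_[p]} (hP0 : P ≠ 0)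
    (hP : ∀ m, IsAlgebraic ℚ_[p] (P.coeff m)) :
    FiniteDimensional ℚ_[p] (reciprocalRootField P) := by
  have hsub : {α : ℂ_[p] | α ≠ 0 ∧ P.eval α⁻¹ = 0} ⊆
      (fun β => β⁻¹) '' (P.rootSet ℂ_[p]) := by
    rintro α ⟨hα, hα'⟩
    refine ⟨α⁻¹, ?_, inv_inv α⟩
    rw [Polynomial.mem_rootSet]
    exact ⟨hP0, by simpa using hα'⟩
  have hfin : {α : ℂ_[p] | α ≠ 0 ∧ P.eval α⁻¹ = 0}.Finite :=
    ((P.rootSet_finite ℂ_[p]).image _).subset hsub
  have : Finite {α : ℂ_[p] | α ≠ 0 ∧ P.eval α⁻¹ = 0} := hfin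
  apply IntermediateField.finiteDimensional_adjoin
  rintro α ⟨hα, hα'⟩
  -- `α⁻¹` is algebraic over the algebraic closure of `ℚ_p` in `ℂ_p`
  set A := algebraicClosure ℚ_[p] ℂ_[p] with hA
  have hlift : P ∈ Polynomial.lifts (algebraMap A ℂ_[p]) := by
    rw [Polynomial.lifts_iff_coeff_lifts]
    intro n
    exact ⟨⟨P.coeff n, mem_algebraicClosure_iff.2 (hP n)⟩, rfl⟩
  obtain ⟨Q, hQ⟩ := hlift
  have h1 : IsAlgebraic A α⁻¹ := by
    refine ⟨Q, ?_, ?_⟩
    · rintro rfl
      apply hP0
      rw [← hQ]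
      simp
    · rw [Polynomial.aeval_def, ← Polynomial.eval_map]
      have : Polynomial.map (algebraMap A ℂ_[p]) Q = P := hQ
      rw [this]
      exact hα'
  have h2 : IsAlgebraic ℚ_[p] α⁻¹ := h1.restrictScalars ℚ_[p]
  have h3 := h2.inv
  rw [inv_inv] at h3
  exact h3.isIntegral

theorem core_growth {U : Type*} [Nonempty U] (d : U → ℕ) (hd : ∀ x, d x ≠ 0)
    (hfin : ∀ m, {x | d x ≤ m}.Finite) (z : U → ℤ_[p]) :
    ∃ c : ℝ, 0 < c ∧ ∃ N : ℕ, ∀ n : ℕ, N ≤ n → ∀ κ : Multiplicative ℤ_[p] →* ℂ_[p]ˣ,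
      orderOf κ = p ^ n → ∀ P : Polynomial ℂ_[p],
      (P : PowerSeries ℂ_[p]) = ∏' x : U, (1 - PowerSeries.C
        (κ (Multiplicative.ofAdd (z x)) : ℂ_[p]) * PowerSeries.X ^ d x)⁻¹ →
      c ≤ (ramificationIndex (reciprocalRootField P) : ℝ) / (p : ℝ) ^ n := by
  classical
  -- formula for the coefficients
  have hcoeff : ∀ (κ : Multiplicative ℤ_[p] →* ℂ_[p]ˣ) (P : Polynomial ℂ_[p]),
      (P : PowerSeries ℂ_[p]) = ∏' x : U, (1 - PowerSeries.C
        (κ (Multiplicative.ofAdd (z x)) : ℂ_[p]) * PowerSeries.X ^ d x)⁻¹ →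
      ∀ m, P.coeff m =
        ∑ l ∈ effDiv d hfin m, (κ (Multiplicative.ofAdd (divSum d hfin z m l)) : ℂ_[p]) := by
    intro κ P hP m
    rw [(hasProd_euler d hfin (fun x => (κ (Multiplicative.ofAdd (z x)) : ℂ_[p]))).tprod_eq] at hP
    rw [← Polynomial.coeff_coe, hP, PowerSeries.coeff_mk, coeff_euler d hd hfin z κ m]
  by_cases hex : ∃ m, ∃ l ∈ effDiv d hfin m, divSum d hfin z m l ≠ 0
  · obtain ⟨m, hm⟩ := hex
    obtain ⟨μ, j₀, hj₀, hform⟩ := exists_norm_formula ℂ_[p] (effDiv d hfin m)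
      (divSum d hfin z m) hm
    refine ⟨(2 * (j₀ : ℝ))⁻¹, by positivity, j₀ + 1, ?_⟩
    intro n hn κ hκ P hP
    have hn0 : n ≠ 0 := by omega
    have hp2 := hp.out.two_le
    have hcP := hcoeff κ P hP
    have hκ' : κ ^ (p ^ n) = 1 := by rw [← hκ]; exact pow_orderOf_eq_one κ
    -- constant coefficient
    have hP1 : P.coeff 0 = 1 := by
      rw [(hasProd_euler d hfin (fun x => (κ (Multiplicative.ofAdd (z x)) : ℂ_[p]))).tprod_eq] at hP
      rw [← Polynomial.coeff_coe, hP, PowerSeries.coeff_mk]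
      have hempty : (hfin 0).toFinset = ∅ := by
        ext x
        simp [hd x]
      rw [hempty]
      simp
    have hP0 : P ≠ 0 := by
      rintro rfl
      simp at hP1
    -- algebraicity of the coefficients
    have halg : ∀ m, IsAlgebraic ℚ_[p] (P.coeff m) := by
      intro m
      rw [hcP m]
      refine IsIntegral.isAlgebraic (IsIntegral.sum _ fun l _ => ?_)
      refine ⟨Polynomial.X ^ (p ^ n) - 1, Polynomial.monic_X_pow_sub_C 1
        (pow_ne_zero _ hp.out.ne_zero), ?_⟩
      have h2 := DFunLike.congr_fun hκ' (Multiplicative.ofAdd (divSum d hfin z m l))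
      simp only [MonoidHom.pow_apply, MonoidHom.one_apply] at h2
      have h3 := congrArg Units.val h2
      rw [Units.val_pow_eq_pow_val, Units.val_one] at h3
      simp [h3]
    have := finiteDimensional_reciprocalRootField hP0 halg
    have hmem := coeff_mem_reciprocalRootField hP1 m
    have hmem' : P.coeff m - ((effDiv d hfin m).card : ℂ_[p]) ∈ reciprocalRootField P :=
      sub_mem hmem (natCast_mem _ _)
    have hnorm := hform n (by omega) κ hκ
    rw [← hcP m] at hnorm
    have hprim := isPrimitiveRoot_of_orderOf (F := ℂ_[p]) hκ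
    have hr := norm_primitive_sub_one_pow (F := ℂ_[p]) hn0 hprim
    have hr0 : 0 < ‖(κ (Multiplicative.ofAdd 1) : ℂ_[p]) - 1‖ := by
      rw [norm_pos_iff, sub_ne_zero]
      intro h1
      rw [h1] at hprim
      have := hprim.unique IsPrimitiveRoot.one
      have h2 : 1 < p ^ n := Nat.one_lt_pow hn0 (by omega)
      omega
    have hle := totient_le_mul_ramificationIndex (reciprocalRootField P) hmem' hj₀ hr hr0 hnorm
    -- conclusion
    obtain ⟨q, rfl⟩ : ∃ q, n = q + 1 := ⟨n - 1, by omega⟩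
    rw [Nat.add_sub_cancel] at hle
    have hle' : ((p : ℝ) ^ q * (p - 1 : ℝ)) ≤
        j₀ * (ramificationIndex (reciprocalRootField P) : ℝ) := by
      have : ((p ^ q * (p - 1) : ℕ) : ℝ) ≤
        ((j₀ * ramificationIndex (reciprocalRootField P) : ℕ) : ℝ) := by exact_mod_cast hle
      rw [Nat.cast_mul, Nat.cast_pow, Nat.cast_sub (by omega), Nat.cast_mul, Nat.cast_one] at this
      exact this
    have hp2' : (2 : ℝ) ≤ p := by exact_mod_cast hp2
    have hj₀' : (1 : ℝ) ≤ j₀ := by exact_mod_cast hj₀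
    rw [le_div_iff₀ (by positivity), inv_mul_le_iff₀ (by positivity), pow_succ]
    have h5 : (p : ℝ) ^ q * p ≤ 2 * ((p : ℝ) ^ q * (p - 1 : ℝ)) := by
      have h6 : 0 ≤ (p : ℝ) ^ q := by positivity
      nlinarith
    linarith
  · -- all Frobenius elements would be trivial
    push Not at hex
    refine ⟨1, one_pos, 0, ?_⟩
    intro n _ κ _ P hP
    exfalso
    obtain ⟨x⟩ := ‹Nonempty U›
    set j := P.natDegree + 1 with hj
    have h1 := hcoeff κ P hP (j * d x)
    have h2 : P.coeff (j * d x) = 0 := by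
      apply Polynomial.coeff_eq_zero_of_natDegree_lt
      have := Nat.le_mul_of_pos_right j (Nat.pos_of_ne_zero (hd x))
      omega
    have h3 : ∑ l ∈ effDiv d hfin (j * d x),
        (κ (Multiplicative.ofAdd (divSum d hfin z (j * d x) l)) : ℂ_[p]) =
        ((effDiv d hfin (j * d x)).card : ℂ_[p]) := by
      rw [Finset.sum_congr rfl (g := fun _ => (1 : ℂ_[p]))]
      · simp
      · intro l hl
        rw [hex _ l hl]
        simp
    rw [h2, h3] at h1
    have h4 : (effDiv d hfin (j * d x)).card = 0 := by exact_mod_cast h1.symm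
    rw [Finset.card_eq_zero] at h4
    have h5 := single_mem_effDiv d hfin x (j := j) (by omega)
    rw [h4] at h5
    exact absurd h5 (Finset.notMem_empty _)

end Pool.Agent.Lib.MP30d976
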