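import Mathlib
import Pool.Agent.Lib.MP_30d976_nt.Defs

/-!
# Closed points of curves over finite fields

Residue fields are finite, there are finitely many closed points of bounded degree, and
infinitely many closed points in total.
-/

open Finset

namespace Pool.Agent.Lib.MP30d976

variable {k K : Type*} [Field k] [Field K] [Algebra k K]

lemma finiteDimensional_adjoin_of_transcendental
    (h : ∃ t : K, Transcendental k t ∧ FiniteDimensional (IntermediateField.adjoin k {t}) K)
    {f : K} (hf : Transcendental k f) : FiniteDimensional (IntermediateField.adjoin k {f}) K := by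
  obtain ⟨t, ht, hfin⟩ := h
  -- `K / k` is essentially of finite type
  have h1 : Algebra.EssFiniteType k (IntermediateField.adjoin k {t}) := by
    rw [IntermediateField.essFiniteType_iff]
    exact ⟨{t}, by simp⟩
  have h2 : Algebra.EssFiniteType k K :=
    Algebra.EssFiniteType.comp k (IntermediateField.adjoin k {t}) K
  have h3 : Algebra.EssFiniteType (IntermediateField.adjoin k {f}) K :=
    Algebra.EssFiniteType.of_comp k _ K
  -- algebraicity
  have h4 : Algebra.IsAlgebraic (Algebra.adjoin k {t}) K := by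
    have h5 : Algebra.IsAlgebraic (IntermediateField.adjoin k {t}) K := inferInstance
    open IntermediateField.algebraAdjoinAdjoin in
    exact (IsFractionRing.comap_isAlgebraic_iff (A := Algebra.adjoin k {t})
      (K := IntermediateField.adjoin k {t}) (C := K)).2 h5
  have h6 : Algebra.trdeg k K ≤ 1 := by
    have := Algebra.IsAlgebraic.trdeg_le_cardinalMk k ({t} : Set K)
    simpa using this
  have h7 : AlgebraicIndependent k (fun _ : Unit => f) := algebraicIndependent_unique_type_iff.2 hf
  have h8 : IsTranscendenceBasis k (fun _ : Unit => f) := by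
    apply h7.isTranscendenceBasis_of_lift_trdeg_le_of_finite
    simpa using h6
  have h9 := h8.isAlgebraic_field
  rw [Set.range_const] at h9
  exact Algebra.finite_of_essFiniteType_of_isAlgebraic

/-- a polynomial relation with a nonvanishing constant term -/
lemma exists_relation {f : K} (hf : Transcendental k f)
    [FiniteDimensional (IntermediateField.adjoin k {f}) K] {ι : Type*} [Fintype ι]
    (hι : Module.finrank (IntermediateField.adjoin k {f}) K < Fintype.card ι) (w : ι → K) :
    ∃ a : ι → Polynomial k, (∃ i, (a i).coeff 0 ≠ 0) ∧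
      ∑ i, Polynomial.aeval f (a i) * w i = 0 := by
  classical
  -- linear dependence over the field
  have h1 : ¬ LinearIndependent (IntermediateField.adjoin k {f}) w := by
    intro h
    exact absurd h.fintype_card_le_finrank (not_le.2 hι)
  have h2 : ¬ LinearIndependent (Algebra.adjoin k {f}) w := by
    intro h
    open IntermediateField.algebraAdjoinAdjoin in
    exact h1 ((LinearIndependent.iff_fractionRing (Algebra.adjoin k {f})
      (IntermediateField.adjoin k {f})).1 h)
  rw [Fintype.not_linearIndependent_iff] at h2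
  obtain ⟨g, hg, i₀, hi₀⟩ := h2
  have h3 : ∀ i, ∃ b : Polynomial k, Polynomial.aeval f b = (g i : K) := by
    intro i
    have : (g i : K) ∈ (Polynomial.aeval f : Polynomial k →ₐ[k] K).range := by
      rw [← Algebra.adjoin_singleton_eq_range_aeval]
      exact (g i).2
    exact this
  choose b hb using h3
  have hb0 : b i₀ ≠ 0 := by
    intro h
    apply hi₀
    have := hb i₀
    rw [h, map_zero] at this
    exact Subtype.ext this.symm
  have hrel : ∑ i, Polynomial.aeval f (b i) * w i = 0 := by
    rw [← hg]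
    apply Finset.sum_congr rfl
    intro i _
    rw [hb i]
    rfl
  -- minimal trailing degree
  obtain ⟨i₁, hi₁, hmin⟩ := (Finset.univ.filter (fun i => b i ≠ 0)).exists_min_image
    (fun i => (b i).natTrailingDegree) ⟨i₀, by simp [hb0]⟩
  set m := (b i₁).natTrailingDegree with hm
  have hdvd : ∀ i, (Polynomial.X : Polynomial k) ^ m ∣ b i := by
    intro i
    by_cases h0 : b i = 0
    · rw [h0]; exact dvd_zero _
    · rw [Polynomial.X_pow_dvd_iff]
      intro d hd
      apply Polynomial.coeff_eq_zero_of_lt_natTrailingDegree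
      exact hd.trans_le (hmin i (by simp [h0]))
  choose a ha using hdvd
  have hf0 : f ≠ 0 := by
    rintro rfl
    exact hf isAlgebraic_zero
  refine ⟨a, ⟨i₁, ?_⟩, ?_⟩
  · have h4 : (b i₁).coeff m ≠ 0 := by
      rw [hm]
      have : (b i₁).trailingCoeff ≠ 0 :=
        Polynomial.trailingCoeff_nonzero_iff_nonzero.2 (Finset.mem_filter.1 hi₁).2
      exact this
    rw [ha i₁] at h4
    have h5 := Polynomial.coeff_X_pow_mul (a i₁) m 0
    rw [zero_add] at h5
    rwa [h5] at h4
  · have h6 : f ^ m * ∑ i, Polynomial.aeval f (a i) * w i = 0 := by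
      rw [← hrel, Finset.mul_sum]
      apply Finset.sum_congr rfl
      intro i _
      rw [ha i, map_mul, map_pow, Polynomial.aeval_X]
      ring
    exact (mul_eq_zero.1 h6).resolve_left (pow_ne_zero _ hf0)

namespace ClosedPoint

lemma algebraMap_eq (x : ClosedPoint k K) (c : k) :
    algebraMap k x.ResidueField c = IsLocalRing.residue x.ring (x.constants c) := rfl

lemma coe_constants (x : ClosedPoint k K) (c : k) : (x.constants c : K) = algebraMap k K c := rfl

/-- a nonzero element of the maximal ideal -/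
lemma exists_nonunit (x : ClosedPoint k K) : ∃ f : K, f ≠ 0 ∧ f ∈ x.ring.nonunits := by
  have h : ∃ y : K, y ∉ x.ring := by
    by_contra h
    push Not at h
    exact x.ne_top (top_unique fun y _ => h y)
  obtain ⟨y, hy⟩ := h
  have hy0 : y ≠ 0 := by
    rintro rfl
    exact hy (zero_mem _)
  refine ⟨y⁻¹, inv_ne_zero hy0, ?_⟩
  rw [x.ring.inv_mem_nonunits_iff]
  exact Or.inr hy

lemma mem_of_mem_nonunits (x : ClosedPoint k K) {f : K} (hf : f ∈ x.ring.nonunits) :
    f ∈ x.ring := by
  rw [← x.ring.valuation_le_one_iff]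
  exact (x.ring.mem_nonunits_iff.1 hf).le

lemma residue_eq_zero_iff (x : ClosedPoint k K) (y : x.ring) :
    IsLocalRing.residue x.ring y = 0 ↔ (y : K) ∈ x.ring.nonunits := by
  rw [IsLocalRing.residue_eq_zero_iff, ValuationSubring.coe_mem_nonunits_iff]

lemma residue_relation (x : ClosedPoint k K) {f : K} (hf : f ∈ x.ring.nonunits) {ι : Type*}
    [Fintype ι] (a : ι → Polynomial k) (w : ι → x.ring)
    (h : ∑ i, Polynomial.aeval f (a i) * (w i : K) = 0) :
    ∑ i, algebraMap k x.ResidueField ((a i).coeff 0) * IsLocalRing.residue x.ring (w i) = 0 := by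
  set f' : x.ring := ⟨f, x.mem_of_mem_nonunits hf⟩ with hf'
  have h1 : ∀ i, ((Polynomial.eval₂ x.constants f' (a i) : x.ring) : K) =
      Polynomial.aeval f (a i) := by
    intro i
    have := Polynomial.hom_eval₂ (a i) x.constants x.ring.subtype f'
    rw [Polynomial.aeval_def]
    exact this
  have h2 : ∀ i, IsLocalRing.residue x.ring (Polynomial.eval₂ x.constants f' (a i)) =
      algebraMap k x.ResidueField ((a i).coeff 0) := by
    intro i
    rw [Polynomial.hom_eval₂]
    have h3 : IsLocalRing.residue x.ring f' = 0 := by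
      rw [residue_eq_zero_iff]
      exact hf
    rw [h3, Polynomial.eval₂_at_zero]
    rfl
  have h4 : ∑ i, Polynomial.eval₂ x.constants f' (a i) * w i = 0 := by
    apply Subtype.ext
    push_cast
    rw [← h]
    apply Finset.sum_congr rfl
    intro i _
    rw [h1]
  have h5 := congrArg (IsLocalRing.residue x.ring) h4
  rw [map_sum, map_zero] at h5
  rw [← h5]
  apply Finset.sum_congr rfl
  intro i _
  rw [map_mul, h2]

lemma nonunits_pow_ne_one (x : ClosedPoint k K) {f : K} (hf : f ∈ x.ring.nonunits) {n : ℕ}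
    (hn : n ≠ 0) : f ^ n ≠ 1 := by
  intro h
  have h1 := x.ring.mem_nonunits_iff.1 hf
  have h2 : x.ring.valuation (f ^ n) < 1 := by
    rw [map_pow]
    exact pow_lt_one₀ zero_le h1 hn
  rw [h, map_one] at h2
  exact lt_irrefl _ h2

variable [Finite k]

lemma transcendental_of_mem_nonunits (x : ClosedPoint k K) {f : K} (hf0 : f ≠ 0)
    (hf : f ∈ x.ring.nonunits) : Transcendental k f := by
  intro halg
  have hfd : FiniteDimensional k (IntermediateField.adjoin k {f}) :=
    IntermediateField.adjoin.finiteDimensional halg.isIntegral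
  have hfin : Finite (IntermediateField.adjoin k {f}) := Module.finite_of_finite k
  have h1 := isOfFinOrder_of_finite
    (Units.mk0 (IntermediateField.AdjoinSimple.gen k f) (by
      intro h
      apply hf0
      have := congrArg Subtype.val h
      simpa using this))
  rw [isOfFinOrder_iff_pow_eq_one] at h1
  obtain ⟨n, hn, h2⟩ := h1
  have h3 := congrArg (fun u : (IntermediateField.adjoin k {f})ˣ =>
    ((u : IntermediateField.adjoin k {f}) : K)) h2
  simp only [Units.val_pow_eq_pow_val, Units.val_mk0, SubmonoidClass.coe_pow,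
    IntermediateField.AdjoinSimple.coe_gen, Units.val_one, OneMemClass.coe_one] at h3
  exact x.nonunits_pow_ne_one hf hn.ne' h3

lemma card_le_of_linearIndependent (x : ClosedPoint k K) {f : K}
    (hf0 : f ≠ 0) (hf : f ∈ x.ring.nonunits)
    [FiniteDimensional (IntermediateField.adjoin k {f}) K] {ι : Type*} [Fintype ι]
    (v : ι → x.ResidueField) (hv : LinearIndependent k v) :
    Fintype.card ι ≤ Module.finrank (IntermediateField.adjoin k {f}) K := by
  by_contra hlt
  rw [not_le] at hlt
  have hw : ∀ i, ∃ w : x.ring, IsLocalRing.residue x.ring w = v i := fun i =>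
    IsLocalRing.residue_surjective (v i)
  choose w hw using hw
  obtain ⟨a, ⟨i, hi⟩, ha⟩ := exists_relation (x.transcendental_of_mem_nonunits hf0 hf) hlt
    (fun i => (w i : K))
  have h1 := x.residue_relation hf a w ha
  simp only [hw] at h1
  rw [Fintype.linearIndependent_iff] at hv
  apply hi
  apply hv (fun i => (a i).coeff 0)
  simp only [Algebra.smul_def]
  exact h1

lemma finite_residueField (h : IsCurveFunctionField k K) (x : ClosedPoint k K) :
    Module.Finite k x.ResidueField := by
  obtain ⟨f, hf0, hf⟩ := x.exists_nonunit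
  have := finiteDimensional_adjoin_of_transcendental h.exists_finite
    (x.transcendental_of_mem_nonunits hf0 hf)
  rw [← Module.rank_lt_aleph0_iff]
  refine lt_of_le_of_lt (rank_le (n := Module.finrank (IntermediateField.adjoin k {f}) K) ?_)
    (Cardinal.natCast_lt_aleph0)
  intro s hs
  have := x.card_le_of_linearIndependent hf0 hf _ hs
  simpa using this

lemma finite_residueField' (h : IsCurveFunctionField k K) (x : ClosedPoint k K) :
    Finite x.ResidueField := by
  have := x.finite_residueField h
  exact Module.finite_of_finite k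

lemma degree_ne_zero (h : IsCurveFunctionField k K) (x : ClosedPoint k K) : x.degree ≠ 0 := by
  have := x.finite_residueField h
  exact (Module.finrank_pos (R := k) (M := x.ResidueField)).ne'

lemma card_residueField (h : IsCurveFunctionField k K) (x : ClosedPoint k K) :
    Nat.card x.ResidueField = Nat.card k ^ x.degree := by
  have := x.finite_residueField h
  exact Module.natCard_eq_pow_finrank

/-- powers in the residue field -/
lemma pow_card_pow_sub_mem (h : IsCurveFunctionField k K) (x : ClosedPoint k K) {M : ℕ}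
    (hM : x.degree ∣ M) {z : K} (hz : z ∈ x.ring) :
    z ^ (Nat.card k ^ M) - z ∈ x.ring.nonunits := by
  have hfin := x.finite_residueField' h
  have : Fintype x.ResidueField := Fintype.ofFinite _
  obtain ⟨m, rfl⟩ := hM
  set z' : x.ring := ⟨z, hz⟩ with hz'
  have h1 : IsLocalRing.residue x.ring (z' ^ (Nat.card k ^ (x.degree * m)) - z') = 0 := by
    rw [map_sub, map_pow, sub_eq_zero, pow_mul, ← x.card_residueField h, Nat.card_eq_fintype_card,
      FiniteField.pow_card_pow]
  rw [residue_eq_zero_iff] at h1
  exact h1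

lemma pow_card_pow_sub_one_sub_one_mem (h : IsCurveFunctionField k K) (x : ClosedPoint k K)
    {N : ℕ} (hN : Nat.card x.ResidueField - 1 ∣ N) {z : K} (hz : z ∈ x.ring)
    (hz' : z ∉ x.ring.nonunits) : z ^ N - 1 ∈ x.ring.nonunits := by
  have hfin := x.finite_residueField' h
  have : Fintype x.ResidueField := Fintype.ofFinite _
  obtain ⟨m, rfl⟩ := hN
  set z' : x.ring := ⟨z, hz⟩ with hz''
  have h0 : IsLocalRing.residue x.ring z' ≠ 0 := by
    rw [Ne, residue_eq_zero_iff]
    exact hz'
  have h1 : IsLocalRing.residue x.ring (z' ^ ((Nat.card x.ResidueField - 1) * m) - 1) = 0 := by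
    rw [map_sub, map_pow, map_one, sub_eq_zero, pow_mul, Nat.card_eq_fintype_card,
      FiniteField.pow_card_sub_one_eq_one _ h0, one_pow]
  rw [residue_eq_zero_iff] at h1
  exact h1

/-- Local rings of distinct closed points are not comparable. -/
lemma eq_of_le (h : IsCurveFunctionField k K) {x y : ClosedPoint k K} (hxy : x.ring ≤ y.ring) :
    x = y := by
  have hnon : y.ring.nonunits ≤ x.ring.nonunits := ValuationSubring.nonunits_le_nonunits.2 hxy
  apply ClosedPoint.ext
  apply le_antisymm hxy
  intro z hz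
  by_contra hzx
  have hz0 : z ≠ 0 := by rintro rfl; exact hzx (zero_mem _)
  have h1 : z⁻¹ ∈ x.ring.nonunits := by
    rw [x.ring.inv_mem_nonunits_iff]; exact Or.inr hzx
  have h2 : z⁻¹ ∈ y.ring := hxy (x.mem_of_mem_nonunits h1)
  have h3 : z⁻¹ ∉ y.ring.nonunits := by
    rw [y.ring.inv_mem_nonunits_iff]
    push Not
    exact ⟨hz0, hz⟩
  have hfin := y.finite_residueField' h
  have hcard : 1 < Nat.card y.ResidueField := Finite.one_lt_card
  have h4 := y.pow_card_pow_sub_one_sub_one_mem h dvd_rfl h2 h3
  have h5 := hnon h4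
  have h6 : (z⁻¹) ^ (Nat.card y.ResidueField - 1) ∈ x.ring.nonunits := by
    have : Nat.card y.ResidueField - 1 ≠ 0 := by omega
    rw [x.ring.mem_nonunits_iff] at h1 ⊢
    rw [map_pow]
    exact pow_lt_one₀ zero_le h1 this
  have h7 := sub_mem h6 h5
  rw [sub_sub_cancel] at h7
  rw [x.ring.mem_nonunits_iff, map_one] at h7
  exact lt_irrefl _ h7

lemma exists_sep (h : IsCurveFunctionField k K) {x y : ClosedPoint k K} (hxy : x ≠ y) :
    ∃ c : K, c - 1 ∈ x.ring.nonunits ∧ c ∈ y.ring.nonunits := by
  have h1 : ¬ y.ring ≤ x.ring := fun hle => hxy (eq_of_le h hle).symm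
  have h2 : ¬ x.ring ≤ y.ring := fun hle => hxy (eq_of_le h hle)
  obtain ⟨a, hay, hax⟩ := SetLike.not_le_iff_exists.1 h1
  obtain ⟨b, hbx, hby⟩ := SetLike.not_le_iff_exists.1 h2
  rw [← ValuationSubring.valuation_le_one_iff] at hay hax hbx hby
  rw [not_le] at hax hby
  have h3 : y.ring.valuation (a + b) = y.ring.valuation b :=
    Valuation.map_add_eq_of_lt_right _ (hay.trans_lt hby)
  have h4 : x.ring.valuation (a + b) = x.ring.valuation a :=
    Valuation.map_add_eq_of_lt_left _ (hbx.trans_lt hax)
  have hab : a + b ≠ 0 := by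
    intro h0
    rw [h0, map_zero] at h4
    rw [← h4] at hax
    exact absurd hax (by simp)
  refine ⟨a / (a + b), ?_, ?_⟩
  · have : a / (a + b) - 1 = -(b / (a + b)) := by field_simp; ring
    rw [this, ValuationSubring.mem_nonunits_iff, Valuation.map_neg, map_div₀, h4]
    rw [div_lt_one₀ (zero_lt_one.trans hax)]
    exact hbx.trans_lt hax
  · rw [ValuationSubring.mem_nonunits_iff, map_div₀, h3]
    rw [div_lt_one₀ (zero_lt_one.trans hby)]
    exact hay.trans_lt hby

/-- the value of the rational function `e / (e ^ 2 - e + 1)` at `e = c ^ N` -/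
noncomputable def bump (N : ℕ) (c : K) : K := c ^ N / ((c ^ N) ^ 2 - c ^ N + 1)

omit [Finite k] in
lemma bump_mem_nonunits_of_mem (x : ClosedPoint k K) {N : ℕ} (hN : N ≠ 0) {c : K}
    (hc : c ∈ x.ring.nonunits) : bump N c ∈ x.ring.nonunits := by
  rw [ValuationSubring.mem_nonunits_iff] at hc ⊢
  set v := x.ring.valuation
  have h1 : v (c ^ N) < 1 := by
    rw [map_pow]; exact pow_lt_one₀ zero_le hc hN
  have h2 : v ((c ^ N) ^ 2 - c ^ N) < 1 := by
    refine (Valuation.map_sub v _ _).trans_lt (max_lt ?_ h1)
    rw [map_pow]; exact pow_lt_one₀ zero_le h1 two_ne_zero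
  have h3 : v ((c ^ N) ^ 2 - c ^ N + 1) = 1 := by
    rw [Valuation.map_add_eq_of_lt_right v (by rw [map_one]; exact h2), map_one]
  rw [bump, map_div₀, h3, div_one]
  exact h1

lemma bump_sub_one_mem (h : IsCurveFunctionField k K) (x : ClosedPoint k K) {N : ℕ}
    (hN : Nat.card x.ResidueField - 1 ∣ N) {c : K} (hc : c ∈ x.ring)
    (hc' : c ∉ x.ring.nonunits) : bump N c - 1 ∈ x.ring.nonunits := by
  have h0 := x.pow_card_pow_sub_one_sub_one_mem h hN hc hc'
  rw [ValuationSubring.mem_nonunits_iff] at h0 ⊢
  set v := x.ring.valuation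
  have h1 : v (c ^ N) = 1 := by
    have : c ^ N = (c ^ N - 1) + 1 := by ring
    rw [this, Valuation.map_add_eq_of_lt_right v (by rw [map_one]; exact h0), map_one]
  have h2 : v (c ^ N * (c ^ N - 1)) < 1 := by
    rw [map_mul, h1, one_mul]; exact h0
  have h3 : v ((c ^ N) ^ 2 - c ^ N + 1) = 1 := by
    have : (c ^ N) ^ 2 - c ^ N + 1 = c ^ N * (c ^ N - 1) + 1 := by ring
    rw [this, Valuation.map_add_eq_of_lt_right v (by rw [map_one]; exact h2), map_one]
  have h4 : (c ^ N) ^ 2 - c ^ N + 1 ≠ 0 := by
    intro h4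
    rw [h4, map_zero] at h3
    exact zero_ne_one h3
  have h5 : bump N c - 1 = -((c ^ N - 1) ^ 2 / ((c ^ N) ^ 2 - c ^ N + 1)) := by
    rw [bump, eq_neg_iff_add_eq_zero, sub_add_eq_add_sub, ← add_div, sub_eq_zero,
      div_eq_one_iff_eq h4]
    ring
  rw [h5, Valuation.map_neg, map_div₀, h3, div_one, map_pow]
  exact pow_lt_one₀ zero_le h0 two_ne_zero

omit [Finite k] in
lemma bump_mem_nonunits_of_not_mem (x : ClosedPoint k K) {N : ℕ} (hN : N ≠ 0) {c : K}
    (hc : c ∉ x.ring) : bump N c ∈ x.ring.nonunits := by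
  rw [← ValuationSubring.valuation_le_one_iff, not_le] at hc
  rw [ValuationSubring.mem_nonunits_iff]
  set v := x.ring.valuation
  have h1 : 1 < v (c ^ N) := by
    rw [map_pow]; exact one_lt_pow₀ hc hN
  have h2 : v (c ^ N) < v ((c ^ N) ^ 2) := by
    rw [map_pow v (c ^ N) 2, pow_two]
    exact lt_mul_of_one_lt_left (zero_lt_one.trans h1) h1
  have h3 : v ((c ^ N) ^ 2 - c ^ N + 1) = v ((c ^ N) ^ 2) := by
    have h4 : v ((c ^ N) ^ 2 - c ^ N) = v ((c ^ N) ^ 2) :=
      Valuation.map_sub_eq_of_lt_left v h2
    rw [Valuation.map_add_eq_of_lt_left v, h4]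
    rw [h4, map_one]
    exact h1.trans h2
  rw [bump, map_div₀, h3, div_lt_one₀ (zero_lt_one.trans (h1.trans h2))]
  exact h2

lemma bump_cases (h : IsCurveFunctionField k K) (x : ClosedPoint k K) {N : ℕ} (hN0 : N ≠ 0)
    (hN : Nat.card x.ResidueField - 1 ∣ N) (c : K) : bump N c ∈ x.ring := by
  by_cases hc : c ∈ x.ring
  · by_cases hc' : c ∈ x.ring.nonunits
    · exact x.mem_of_mem_nonunits (x.bump_mem_nonunits_of_mem hN0 hc')
    · have h1 := x.mem_of_mem_nonunits (x.bump_sub_one_mem h hN hc hc')
      have h2 := add_mem h1 (one_mem x.ring)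
      rwa [sub_add_cancel] at h2
  · exact x.mem_of_mem_nonunits (x.bump_mem_nonunits_of_not_mem hN0 hc)

lemma exists_approx (h : IsCurveFunctionField k K) (T : Finset (ClosedPoint k K))
    (x : ClosedPoint k K) :
    ∃ w : K, w - 1 ∈ x.ring.nonunits ∧ (∀ y ∈ T, y ≠ x → w ∈ y.ring.nonunits) := by
  classical
  set N : ℕ := (Nat.card x.ResidueField - 1) * ∏ y ∈ T, (Nat.card y.ResidueField - 1) with hN
  have hcard : ∀ y : ClosedPoint k K, Nat.card y.ResidueField - 1 ≠ 0 := by
    intro y
    have hfin := y.finite_residueField' h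
    have : 1 < Nat.card y.ResidueField := Finite.one_lt_card
    omega
  have hN0 : N ≠ 0 := mul_ne_zero (hcard x) (Finset.prod_ne_zero_iff.2 fun y _ => hcard y)
  have hNx : Nat.card x.ResidueField - 1 ∣ N := dvd_mul_right _ _
  have hNy : ∀ y ∈ T, Nat.card y.ResidueField - 1 ∣ N := fun y hy =>
    (Finset.dvd_prod_of_mem (fun y : ClosedPoint k K => Nat.card y.ResidueField - 1) hy).mul_left _
  have hc : ∀ y : ClosedPoint k K, ∃ c : K, y ≠ x → (c - 1 ∈ x.ring.nonunits ∧ c ∈ y.ring.nonunits) := by
    intro y
    by_cases hy : y = x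
    · exact ⟨0, fun h => absurd hy h⟩
    · obtain ⟨c, hc⟩ := exists_sep h (x := x) (y := y) (fun e => hy e.symm)
      exact ⟨c, fun _ => hc⟩
  choose c hc using hc
  have key1 : ∀ y, y ≠ x → bump N (c y) - 1 ∈ x.ring.nonunits := by
    intro y hy
    obtain ⟨h1, -⟩ := hc y hy
    have h2 : c y ∈ x.ring := by
      have := add_mem (x.mem_of_mem_nonunits h1) (one_mem x.ring)
      rwa [sub_add_cancel] at this
    have h3 : c y ∉ x.ring.nonunits := by
      intro h3
      have h4 := sub_mem h3 h1
      rw [sub_sub_cancel, ValuationSubring.mem_nonunits_iff, map_one] at h4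
      exact lt_irrefl _ h4
    exact x.bump_sub_one_mem h hNx h2 h3
  refine ⟨∏ y ∈ T.erase x, bump N (c y), ?_, ?_⟩
  · -- product of elements congruent to one
    have : ∀ S : Finset (ClosedPoint k K), x ∉ S →
        (∏ y ∈ S, bump N (c y)) - 1 ∈ x.ring.nonunits := by
      intro S
      induction S using Finset.induction_on with
      | empty => intro _; simp
      | insert a S ha IH =>
        intro hx
        rw [Finset.prod_insert ha]
        have hax : a ≠ x := fun e => hx (e ▸ Finset.mem_insert_self a S)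
        have h1 := IH (fun h => hx (Finset.mem_insert_of_mem h))
        have h2 := key1 a hax
        have h3 : bump N (c a) * ∏ y ∈ S, bump N (c y) - 1 =
            bump N (c a) * ((∏ y ∈ S, bump N (c y)) - 1) + (bump N (c a) - 1) := by ring
        rw [h3]
        refine add_mem ?_ h2
        rw [ValuationSubring.mem_nonunits_iff] at h1 ⊢
        rw [map_mul]
        have h4 := (x.ring.valuation_le_one_iff _).2 (x.bump_cases h hN0 hNx (c a))
        exact (mul_le_mul_left h4 _).trans_lt (by rwa [one_mul])
    exact this _ (Finset.notMem_erase x T)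
  · intro y hy hyx
    have hye : y ∈ T.erase x := Finset.mem_erase.2 ⟨hyx, hy⟩
    rw [← Finset.mul_prod_erase _ _ hye, ValuationSubring.mem_nonunits_iff, map_mul]
    have h1 := y.bump_mem_nonunits_of_mem hN0 (hc y hyx).2
    rw [ValuationSubring.mem_nonunits_iff] at h1
    have h2 : (∏ z ∈ (T.erase x).erase y, bump N (c z)) ∈ y.ring :=
      prod_mem fun z _ => y.bump_cases h hN0 (hNy y hy) (c z)
    have h3 := (y.ring.valuation_le_one_iff _).2 h2
    exact (mul_le_mul_right h3 _).trans_lt (by rwa [mul_one])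

/-- a nonzero function has finitely many zeros -/
lemma finite_zeros (h : IsCurveFunctionField k K) {f : K} (hf0 : f ≠ 0) :
    {x : ClosedPoint k K | f ∈ x.ring.nonunits}.Finite := by
  classical
  by_contra hinf
  rw [Set.not_finite] at hinf
  obtain ⟨x₀, hx₀⟩ := hinf.nonempty
  have htr := x₀.transcendental_of_mem_nonunits hf0 hx₀
  have hfd := finiteDimensional_adjoin_of_transcendental h.exists_finite htr
  obtain ⟨T, hT, hTcard⟩ := hinf.exists_subset_card_eq
    (Module.finrank (IntermediateField.adjoin k {f}) K + 1)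
  have hw : ∀ x : T, ∃ w : K, w - 1 ∈ (x : ClosedPoint k K).ring.nonunits ∧
      (∀ y ∈ T, y ≠ x → w ∈ y.ring.nonunits) := fun x => exists_approx h T x
  choose w hw1 hw2 using hw
  obtain ⟨a, ⟨i, hi⟩, ha⟩ := exists_relation htr (ι := T) (by
    rw [Fintype.card_coe, hTcard]; omega) w
  -- reduce modulo the point `i`
  have hiT : f ∈ (i : ClosedPoint k K).ring.nonunits := hT i.2
  have hmem : ∀ j : T, w j ∈ (i : ClosedPoint k K).ring := by
    intro j
    by_cases hij : (i : ClosedPoint k K) = j
    · have h1 := hw1 j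
      rw [← hij] at h1
      have := add_mem ((i : ClosedPoint k K).mem_of_mem_nonunits h1) (one_mem _)
      rwa [sub_add_cancel] at this
    · exact (i : ClosedPoint k K).mem_of_mem_nonunits (hw2 j i i.2 hij)
  have h1 := (i : ClosedPoint k K).residue_relation hiT a (fun j => ⟨w j, hmem j⟩) ha
  rw [Finset.sum_eq_single i] at h1
  · have h2 : IsLocalRing.residue (i : ClosedPoint k K).ring ⟨w i, hmem i⟩ = 1 := by
      rw [← sub_eq_zero, ← map_one (IsLocalRing.residue (i : ClosedPoint k K).ring), ← map_sub,
        residue_eq_zero_iff]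
      exact hw1 i
    rw [h2, mul_one] at h1
    exact hi ((map_eq_zero _).1 h1)
  · intro j _ hj
    have h2 : IsLocalRing.residue (i : ClosedPoint k K).ring ⟨w j, hmem j⟩ = 0 := by
      rw [residue_eq_zero_iff]
      exact hw2 j i i.2 (fun e => hj (Subtype.ext e.symm))
    rw [h2, mul_zero]
  · intro hi'
    exact absurd (Finset.mem_univ i) hi'

/-- finitely many closed points of bounded degree -/
lemma finite_degree_le (h : IsCurveFunctionField k K) (m : ℕ) :
    {x : ClosedPoint k K | x.degree ≤ m}.Finite := by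
  obtain ⟨t, ht, -⟩ := h.exists_finite
  have hq : 1 < Nat.card k := Finite.one_lt_card
  have hM : m.factorial ≠ 0 := Nat.factorial_ne_zero m
  have hqM : 1 < Nat.card k ^ m.factorial := Nat.one_lt_pow hM hq
  -- the function `t ^ (q ^ M) - t` is not zero, nor is the one for `1 / t`
  have key : ∀ s : K, Transcendental k s → s ^ (Nat.card k ^ m.factorial) - s ≠ 0 := by
    intro s hs h0
    apply hs
    refine ⟨Polynomial.X ^ (Nat.card k ^ m.factorial) - Polynomial.X, ?_, by simpa using h0⟩
    intro h1
    have h2 := congrArg (fun P : Polynomial k => P.coeff 1) h1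
    simp only [Polynomial.coeff_sub, Polynomial.coeff_X_pow, Polynomial.coeff_X_one,
      Polynomial.coeff_zero, if_neg hqM.ne] at h2
    simp at h2
  have ht' : Transcendental k t⁻¹ := by
    intro h0
    apply ht
    simpa using h0.inv
  refine ((finite_zeros h (key t ht)).union (finite_zeros h (key t⁻¹ ht'))).subset ?_
  intro x hx
  have hdvd : x.degree ∣ m.factorial :=
    Nat.dvd_factorial (Nat.pos_of_ne_zero (x.degree_ne_zero h)) hx
  rcases x.ring.mem_or_inv_mem t with h1 | h1
  · exact Or.inl (x.pow_card_pow_sub_mem h hdvd h1)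
  · exact Or.inr (x.pow_card_pow_sub_mem h hdvd h1)

omit [Finite k] in
/-- a transcendental function has a zero -/
lemma exists_zero {f : K} (hf : Transcendental k f) :
    ∃ x : ClosedPoint k K, f ∈ x.ring.nonunits := by
  set A : Subring K := (Algebra.adjoin k {f}).toSubring with hA
  have hfA : f ∈ A := Algebra.self_mem_adjoin_singleton k f
  set I : Ideal A := Ideal.span {(⟨f, hfA⟩ : A)} with hI
  have hI1 : I ≠ ⊤ := by
    intro htop
    rw [Ideal.eq_top_iff_one, hI, Ideal.mem_span_singleton] at htop
    obtain ⟨⟨g, hg⟩, h1⟩ := htop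
    have h2 : (1 : K) = f * g := congrArg Subtype.val h1
    have hg' : g ∈ (Polynomial.aeval f : Polynomial k →ₐ[k] K).range := by
      rw [← Algebra.adjoin_singleton_eq_range_aeval]
      exact hg
    obtain ⟨P, hP⟩ := hg'
    apply hf
    refine ⟨Polynomial.X * P - 1, ?_, ?_⟩
    · intro h3
      have h4 := congrArg (fun Q : Polynomial k => Q.coeff 0) h3
      simp at h4
    · have hP' : Polynomial.aeval f P = g := hP
      rw [map_sub, map_mul, Polynomial.aeval_X, map_one, hP', ← h2, sub_self]
  obtain ⟨B, hAB, hB⟩ := Ideal.image_subset_nonunits_valuationSubring I hI1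
  have hfB : f ∈ B.nonunits := by
    apply hB
    exact ⟨⟨f, hfA⟩, Ideal.mem_span_singleton_self _, rfl⟩
  refine ⟨⟨B, fun c => hAB (Subalgebra.algebraMap_mem (Algebra.adjoin k {f}) c), ?_⟩, hfB⟩
  intro htop
  rw [ValuationSubring.mem_nonunits_iff_or] at hfB
  rcases hfB with h0 | h0
  · exact hf (h0 ▸ isAlgebraic_zero)
  · apply h0
    rw [htop]
    exact ValuationSubring.mem_top _

lemma denominator_not_mem (h : IsCurveFunctionField k K) (x : ClosedPoint k K) {N : ℕ}
    (hN0 : N ≠ 0) (hN : Nat.card x.ResidueField - 1 ∣ N) (c : K) :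
    (c ^ N) ^ 2 - c ^ N + 1 ∉ x.ring.nonunits := by
  intro hmem
  rw [ValuationSubring.mem_nonunits_iff] at hmem
  by_cases hc : c ∈ x.ring
  · by_cases hc' : c ∈ x.ring.nonunits
    · rw [ValuationSubring.mem_nonunits_iff] at hc'
      set v := x.ring.valuation
      have h1 : v (c ^ N) < 1 := by
        rw [map_pow]; exact pow_lt_one₀ zero_le hc' hN0
      have h2 : v ((c ^ N) ^ 2 - c ^ N) < 1 := by
        refine (Valuation.map_sub v _ _).trans_lt (max_lt ?_ h1)
        rw [map_pow]; exact pow_lt_one₀ zero_le h1 two_ne_zero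
      have h3 : v ((c ^ N) ^ 2 - c ^ N + 1) = 1 := by
        rw [Valuation.map_add_eq_of_lt_right v (by rw [map_one]; exact h2), map_one]
      rw [h3] at hmem
      exact lt_irrefl _ hmem
    · have h0 := x.pow_card_pow_sub_one_sub_one_mem h hN hc hc'
      rw [ValuationSubring.mem_nonunits_iff] at h0
      set v := x.ring.valuation
      have h1 : v (c ^ N) = 1 := by
        have : c ^ N = (c ^ N - 1) + 1 := by ring
        rw [this, Valuation.map_add_eq_of_lt_right v (by rw [map_one]; exact h0), map_one]
      have h2 : v (c ^ N * (c ^ N - 1)) < 1 := by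
        rw [map_mul, h1, one_mul]; exact h0
      have h3 : v ((c ^ N) ^ 2 - c ^ N + 1) = 1 := by
        have : (c ^ N) ^ 2 - c ^ N + 1 = c ^ N * (c ^ N - 1) + 1 := by ring
        rw [this, Valuation.map_add_eq_of_lt_right v (by rw [map_one]; exact h2), map_one]
      rw [h3] at hmem
      exact lt_irrefl _ hmem
  · rw [← ValuationSubring.valuation_le_one_iff, not_le] at hc
    set v := x.ring.valuation
    have h1 : 1 < v (c ^ N) := by
      rw [map_pow]; exact one_lt_pow₀ hc hN0
    have h2 : v (c ^ N) < v ((c ^ N) ^ 2) := by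
      rw [map_pow v (c ^ N) 2, pow_two]
      exact lt_mul_of_one_lt_left (zero_lt_one.trans h1) h1
    have h4 : v ((c ^ N) ^ 2 - c ^ N) = v ((c ^ N) ^ 2) :=
      Valuation.map_sub_eq_of_lt_left v h2
    have h3 : v ((c ^ N) ^ 2 - c ^ N + 1) = v ((c ^ N) ^ 2) := by
      rw [Valuation.map_add_eq_of_lt_left v, h4]
      rw [h4, map_one]
      exact h1.trans h2
    rw [h3] at hmem
    exact absurd (h1.trans h2) (not_lt.2 hmem.le)

/-- there are infinitely many closed points -/
lemma infinite (h : IsCurveFunctionField k K) : Infinite (ClosedPoint k K) := by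
  classical
  rw [← not_finite_iff_infinite]
  intro hfin
  have hft : Fintype (ClosedPoint k K) := Fintype.ofFinite _
  obtain ⟨t, ht, -⟩ := h.exists_finite
  have hcard : ∀ y : ClosedPoint k K, Nat.card y.ResidueField - 1 ≠ 0 := by
    intro y
    have hfin := y.finite_residueField' h
    have : 1 < Nat.card y.ResidueField := Finite.one_lt_card
    omega
  set N : ℕ := ∏ y : ClosedPoint k K, (Nat.card y.ResidueField - 1) with hN
  have hN0 : N ≠ 0 := Finset.prod_ne_zero_iff.2 fun y _ => hcard y
  set P : Polynomial k := Polynomial.X ^ 2 - Polynomial.X + 1 with hP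
  have hPdeg : P.natDegree = 2 := by rw [hP]; compute_degree!
  have hPlead : P.leadingCoeff ∈ nonZeroDivisors k := by
    rw [mem_nonZeroDivisors_iff_ne_zero, Polynomial.leadingCoeff_ne_zero]
    intro h0
    rw [h0] at hPdeg
    simp at hPdeg
  have hPt : Polynomial.aeval (t ^ N) P = (t ^ N) ^ 2 - t ^ N + 1 := by
    rw [hP]
    simp only [map_add, map_sub, map_pow, Polynomial.aeval_X, map_one]
  have htr : Transcendental k (Polynomial.aeval (t ^ N) P) :=
    (ht.pow (Nat.pos_of_ne_zero hN0)).aeval P (by rw [hPdeg]; norm_num) hPlead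
  obtain ⟨x, hx⟩ := exists_zero htr
  rw [hPt] at hx
  have hNx : Nat.card x.ResidueField - 1 ∣ N :=
    Finset.dvd_prod_of_mem (fun y : ClosedPoint k K => Nat.card y.ResidueField - 1)
      (Finset.mem_univ x)
  exact x.denominator_not_mem h hN0 hNx t hx

end ClosedPoint

end Pool.Agent.Lib.MP30d976
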